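import Mathlib

/-!
# Gilbreath tables: the deterministic part

`row X t j` is the entry `j` of row `t` of the table of iterated absolute differences of `X`.
* `fold`: as a function of the newest initial entry, a table entry moves by exactly `±2`.
* `window`: if the maximum `V` of a row survives for `l` rows then `l + 1` consecutive entries of
  the row all lie in `{0, V}`.
* `rows_le_two`, `lead_eq_one`: without such windows the table becomes `{0,2}`-valued and the first
  column becomes `1`.
-/

set_option autoImplicit false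

namespace Pool.Agent.Gil

/-- the absolute difference operator -/
def D (f : ℕ → ℤ) : ℕ → ℤ := fun n => |f (n + 1) - f n|

/-- the rows of the difference table -/
def row (X : ℕ → ℤ) (t : ℕ) : ℕ → ℤ := D^[t] X

lemma row_zero (X : ℕ → ℤ) (j : ℕ) : row X 0 j = X j := rfl

lemma row_succ (X : ℕ → ℤ) (t j : ℕ) : row X (t + 1) j = |row X t (j + 1) - row X t j| := by
  unfold row; rw [Function.iterate_succ_apply']; rfl

lemma row_nonneg (X : ℕ → ℤ) {t : ℕ} (ht : 1 ≤ t) (j : ℕ) : 0 ≤ row X t j := by
  obtain ⟨s, rfl⟩ : ∃ s, t = s + 1 := ⟨t - 1, by omega⟩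
  rw [row_succ]; exact abs_nonneg _

lemma row_local {X Y : ℕ → ℤ} (t : ℕ) : ∀ j, (∀ i, j ≤ i → i ≤ j + t → X i = Y i) →
    row X t j = row Y t j := by
  induction t with
  | zero => intro j h; exact h j le_rfl (by omega)
  | succ t ih =>
    intro j h
    rw [row_succ, row_succ, ih (j + 1) (fun i h1 h2 => h i (by omega) (by omega)),
      ih j (fun i h1 h2 => h i h1 (by omega))]

lemma even_abs_sub {a b : ℤ} (h : Even (a - b)) : Even |a - b| := by
  rcases abs_choice (a - b) with h' | h' <;> rw [h']
  · exact h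
  · exact h.neg

lemma row_even {X : ℕ → ℤ} (hX : ∀ n, 1 ≤ n → Odd (X n)) (t : ℕ) (ht : 1 ≤ t) :
    ∀ j, 1 ≤ j → Even (row X t j) := by
  induction t, ht using Nat.le_induction with
  | base =>
    intro j hj
    rw [row_succ]
    exact even_abs_sub ((hX _ (by omega)).sub_odd (hX _ hj))
  | succ t ht ih =>
    intro j hj
    rw [row_succ]
    exact even_abs_sub ((ih _ (by omega)).sub (ih _ hj))

lemma row_sub_even {X : ℕ → ℤ} (hX : ∀ n, 1 ≤ n → Odd (X n)) (t : ℕ) {j : ℕ} (hj : 1 ≤ j) :
    Even (row X t (j + 1) - row X t j) := by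
  rcases Nat.eq_zero_or_pos t with rfl | ht
  · exact (hX _ (by omega)).sub_odd (hX _ hj)
  · exact (row_even hX t ht _ (by omega)).sub (row_even hX t ht _ hj)

lemma row_odd_zero {X : ℕ → ℤ} (h0 : Even (X 0)) (hX : ∀ n, 1 ≤ n → Odd (X n)) (t : ℕ)
    (ht : 1 ≤ t) : Odd (row X t 0) := by
  induction t, ht using Nat.le_induction with
  | base =>
    rw [row_succ]
    have : Odd (X 1 - X 0) := (hX 1 le_rfl).sub_even h0
    rcases abs_choice (row X 0 (0 + 1) - row X 0 0) with h' | h' <;> rw [h']
    · exact this
    · exact this.neg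
  | succ t ht ih =>
    rw [row_succ]
    have : Odd (row X t (0 + 1) - row X t 0) := (row_even hX t ht _ (by omega)).sub_odd ih
    rcases abs_choice (row X t (0 + 1) - row X t 0) with h' | h' <;> rw [h']
    · exact this
    · exact this.neg

/-- Folding: raising the newest initial entry by `2` moves the table entry by exactly `±2`. -/
lemma fold {X : ℕ → ℤ} (hX : ∀ n, 1 ≤ n → Odd (X n)) (t : ℕ) : ∀ j, 1 ≤ j →
    row (Function.update X (j + t) (X (j + t) + 2)) t j = row X t j + 2 ∨
    row (Function.update X (j + t) (X (j + t) + 2)) t j = row X t j - 2 := by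
  induction t with
  | zero =>
    intro j hj
    left
    simp [row_zero]
  | succ t ih =>
    intro j hj
    set X' := Function.update X (j + (t + 1)) (X (j + (t + 1)) + 2) with hX'
    have e1 : row X' t j = row X t j := by
      apply row_local
      intro i h1 h2
      rw [hX', Function.update_of_ne (by omega)]
    have e2 := ih (j + 1) (by omega)
    rw [show j + 1 + t = j + (t + 1) by omega, ← hX'] at e2
    have hev := row_sub_even hX t hj
    obtain ⟨c, hc⟩ := hev
    rw [row_succ, row_succ, e1]
    rcases e2 with e2 | e2 <;> rw [e2]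
    · rcases le_or_gt 0 c with h | h
      · left; rw [abs_of_nonneg (by omega), abs_of_nonneg (by omega)]; omega
      · right
        rw [abs_of_nonpos (by omega), abs_of_nonpos (by omega)]; omega
    · rcases le_or_gt c 0 with h | h
      · left; rw [abs_of_nonpos (by omega), abs_of_nonpos (by omega)]; omega
      · right; rw [abs_of_nonneg (by omega), abs_of_nonneg (by omega)]; omega

/-- If the maximum `V` of a stretch of a row survives `l` rows, then the stretch is in `{0,V}`. -/
lemma window {X : ℕ → ℤ} {V : ℤ} (hV : 0 < V) (l : ℕ) : ∀ t j : ℕ,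
    (∀ s i : ℕ, s + i ≤ l → 0 ≤ row X (t + s) (j + i) ∧ row X (t + s) (j + i) ≤ V) →
    row X (t + l) j = V →
    (∀ i ≤ l, row X t (j + i) = 0 ∨ row X t (j + i) = V) ∧ ∃ i ≤ l, row X t (j + i) = V := by
  induction l with
  | zero =>
    intro t j h hV'
    refine ⟨fun i hi => ?_, 0, le_rfl, by simpa using hV'⟩
    obtain rfl : i = 0 := by omega
    right; simpa using hV'
  | succ l ih =>
    intro t j h hV'
    obtain ⟨h1, i0, hi0, h2⟩ := ih (t + 1) j (fun s i hsi => by
      have := h (s + 1) i (by omega)
      rwa [show t + (s + 1) = t + 1 + s by omega] at this)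
      (by rw [← hV']; congr 1; omega)
    have hb : ∀ i, i ≤ l + 1 → 0 ≤ row X t (j + i) ∧ row X t (j + i) ≤ V := fun i hi => by
      simpa using h 0 i (by omega)
    have hd : ∀ i, i ≤ l → |row X t (j + i + 1) - row X t (j + i)| = 0 ∨
        |row X t (j + i + 1) - row X t (j + i)| = V := fun i hi => by
      have := h1 i hi
      rwa [row_succ] at this
    have hd0 : |row X t (j + i0 + 1) - row X t (j + i0)| = V := by rwa [row_succ] at h2
    -- membership propagates
    have hprop : ∀ i, i ≤ l → ((row X t (j + i) = 0 ∨ row X t (j + i) = V) ↔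
        (row X t (j + (i + 1)) = 0 ∨ row X t (j + (i + 1)) = V)) := by
      intro i hi
      have b1 := hb i (by omega)
      have b2 := hb (i + 1) (by omega)
      rw [← add_assoc] at b2 ⊢
      rcases hd i hi with hh | hh
      · rw [abs_eq_zero] at hh
        have : row X t (j + i + 1) = row X t (j + i) := by omega
        rw [this]
      · rcases (abs_eq hV.le).1 hh with h3 | h3 <;> constructor <;> intro _ <;> omega
    have b1 := hb i0 (by omega)
    have b2 := hb (i0 + 1) (by omega)
    rw [← add_assoc] at b2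
    have hi0' : row X t (j + i0) = 0 ∨ row X t (j + i0) = V := by
      rcases (abs_eq hV.le).1 hd0 with h3 | h3 <;> omega
    have hup : ∀ n, i0 + n ≤ l + 1 → (row X t (j + (i0 + n)) = 0 ∨ row X t (j + (i0 + n)) = V) := by
      intro n
      induction n with
      | zero => intro _; exact hi0'
      | succ n ihn =>
        intro hn
        exact (hprop (i0 + n) (by omega)).1 (ihn (by omega))
    have hdown : ∀ n, n ≤ i0 → (row X t (j + (i0 - n)) = 0 ∨ row X t (j + (i0 - n)) = V) := by
      intro n
      induction n with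
      | zero => intro _; exact hi0'
      | succ n ihn =>
        intro hn
        have := (hprop (i0 - (n + 1)) (by omega))
        rw [show i0 - (n + 1) + 1 = i0 - n by omega] at this
        exact this.2 (ihn (by omega))
    refine ⟨fun i hi => ?_, ?_⟩
    · rcases le_total i i0 with h3 | h3
      · have := hdown (i0 - i) (by omega)
        rwa [show i0 - (i0 - i) = i by omega] at this
      · have := hup (i - i0) (by omega)
        rwa [show i0 + (i - i0) = i by omega] at this
    · rcases (abs_eq hV.le).1 hd0 with h3 | h3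
      · exact ⟨i0 + 1, by omega, by rw [← add_assoc]; omega⟩
      · exact ⟨i0, by omega, by omega⟩

lemma zero_window {X : ℕ → ℤ} (l : ℕ) : ∀ t j : ℕ, (∀ s, s ≤ l → row X (t + s) j = 0) →
    ∀ i, i ≤ l → row X t (j + i) = 0 := by
  induction l with
  | zero =>
    intro t j h i hi
    obtain rfl : i = 0 := by omega
    simpa using h 0 le_rfl
  | succ l ih =>
    intro t j h i hi
    have h1 := ih t j (fun s hs => h s (by omega))
    have h2 := ih (t + 1) j (fun s hs => by
      rw [show t + 1 + s = t + (s + 1) by omega]; exact h (s + 1) (by omega))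
    rcases Nat.lt_or_ge i (l + 1) with hil | hil
    · exact h1 i (by omega)
    · obtain rfl : i = l + 1 := by omega
      have h3 := h2 l le_rfl
      rw [row_succ, abs_eq_zero] at h3
      have h4 := h1 l le_rfl
      rw [← add_assoc]; omega

/-- the assumption that there is no long stretch of a row with values in `{0, V}`, in the triangle
of size `k` -/
def NoBlock (X : ℕ → ℤ) (k l M : ℕ) : Prop :=
  ∀ t j V : ℕ, 1 ≤ t → 1 ≤ j → 4 ≤ V → V ≤ 2 * M → j + l + t ≤ k →
    ∃ i ≤ l, row X t (j + i) ≠ 0 ∧ row X t (j + i) ≠ (V : ℤ)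

lemma bound_step {X : ℕ → ℤ} {k t : ℕ} {B : ℤ} (ht : 1 ≤ t)
    (h : ∀ j, 1 ≤ j → j + t ≤ k → row X t j ≤ B) :
    ∀ s j, 1 ≤ j → j + (t + s) ≤ k → row X (t + s) j ≤ B := by
  intro s
  induction s with
  | zero => simpa using h
  | succ s ih =>
    intro j hj hjk
    rw [← add_assoc, row_succ]
    have h1 := ih j hj (by omega)
    have h2 := ih (j + 1) (by omega) (by omega)
    have h3 := row_nonneg X (t := t + s) (by omega) j
    have h4 := row_nonneg X (t := t + s) (by omega) (j + 1)
    exact abs_le.2 ⟨by omega, by omega⟩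

/-- after `l` rows the maximum drops by two -/
lemma drop {X : ℕ → ℤ} (hX : ∀ n, 1 ≤ n → Odd (X n)) {k l M : ℕ} (hN : NoBlock X k l M)
    {t V : ℕ} (ht : 1 ≤ t) (hV : 4 ≤ V) (hVM : V ≤ 2 * M) (hVe : Even V)
    (h : ∀ j, 1 ≤ j → j + t ≤ k → row X t j ≤ (V : ℤ)) :
    ∀ j, 1 ≤ j → j + (t + l) ≤ k → row X (t + l) j ≤ (V : ℤ) - 2 := by
  intro j hj hjk
  have h1 := bound_step ht h l j hj hjk
  by_contra hcon
  have hev := row_even hX (t + l) (by omega) j hj
  have hVe' : Even (V : ℤ) := by exact_mod_cast hVe
  have heq : row X (t + l) j = V := by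
    obtain ⟨c, hc⟩ := hev
    obtain ⟨d, hd⟩ := hVe'
    omega
  obtain ⟨hw, -⟩ := window (X := X) (V := (V : ℤ)) (by omega) l t j (fun s i hsi =>
    ⟨row_nonneg X (by omega) _, bound_step ht h s (j + i) (by omega) (by omega)⟩) heq
  obtain ⟨i, hi, hi1, hi2⟩ := hN t j V ht hj hV hVM (by omega)
  rcases hw i hi with h3 | h3
  · exact hi1 h3
  · exact hi2 h3

lemma rows_bound {X : ℕ → ℤ} (hX : ∀ n, 1 ≤ n → Odd (X n)) {k l M : ℕ} (hN : NoBlock X k l M)
    (hgap : ∀ j, 1 ≤ j → j < k → |X (j + 1) - X j| ≤ 2 * (M : ℤ)) :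
    ∀ r, r + 1 ≤ M → ∀ j, 1 ≤ j → j + (1 + l * r) ≤ k →
      row X (1 + l * r) j ≤ 2 * ((M - r : ℕ) : ℤ) := by
  intro r
  induction r with
  | zero =>
    intro hM j hj hjk
    have : row X (1 + l * 0) j = |X (j + 1) - X j| := by
      rw [show 1 + l * 0 = 0 + 1 by omega, row_succ]; rfl
    rw [this]
    have := hgap j hj (by omega)
    simpa using this
  | succ r ih =>
    intro hM j hj hjk
    have h1 := drop hX hN (t := 1 + l * r) (V := 2 * (M - r)) (by omega) (by omega) (by omega)
      (even_two_mul _) (fun j hj hjk => by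
        have := ih (by omega) j hj hjk
        push_cast; exact_mod_cast this)
    have h2 := h1 j hj (by rw [show l * (r + 1) = l * r + l by ring] at hjk; omega)
    rw [show 1 + l * (r + 1) = 1 + l * r + l by ring]
    have h3 : ((2 * (M - r) : ℕ) : ℤ) - 2 = 2 * ((M - (r + 1) : ℕ) : ℤ) := by omega
    rwa [h3] at h2

/-- the late rows have entries in `{0,2}` -/
lemma rows_le_two {X : ℕ → ℤ} (hX : ∀ n, 1 ≤ n → Odd (X n)) {k l M : ℕ} (hM : 1 ≤ M)
    (hN : NoBlock X k l M)
    (hgap : ∀ j, 1 ≤ j → j < k → |X (j + 1) - X j| ≤ 2 * (M : ℤ))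
    {t j : ℕ} (ht : 1 + l * (M - 1) ≤ t) (hj : 1 ≤ j) (hjk : j + t ≤ k) :
    row X t j = 0 ∨ row X t j = 2 := by
  have h1 := rows_bound hX hN hgap (M - 1) (by omega)
  rw [show M - (M - 1) = 1 by omega] at h1
  have h2 := bound_step (X := X) (k := k) (t := 1 + l * (M - 1)) (B := 2) (by omega)
    (fun j hj hjk => by simpa using h1 j hj hjk) (t - (1 + l * (M - 1))) j hj (by omega)
  rw [show 1 + l * (M - 1) + (t - (1 + l * (M - 1))) = t by omega] at h2
  have h3 := row_nonneg X (t := t) (by omega) j
  obtain ⟨c, hc⟩ := row_even hX t (by omega) j hj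
  omega

lemma lead_le {X : ℕ → ℤ} (h0 : Even (X 0)) (hX : ∀ n, 1 ≤ n → Odd (X n)) {k M : ℕ}
    (hgap : ∀ j, j < k → |X (j + 1) - X j| ≤ 2 * (M : ℤ)) :
    ∀ t, 1 ≤ t → t ≤ k → row X t 0 ≤ 2 * (M : ℤ) - 1 := by
  have hg : ∀ s j, j + (1 + s) ≤ k → row X (1 + s) j ≤ 2 * (M : ℤ) := by
    intro s
    induction s with
    | zero =>
      intro j hj
      rw [show 1 + 0 = 0 + 1 by omega, row_succ]
      exact hgap j (by omega)
    | succ s ih =>
      intro j hj
      rw [← add_assoc, row_succ]
      have h1 := ih j (by omega)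
      have h2 := ih (j + 1) (by omega)
      have h3 := row_nonneg X (t := 1 + s) (by omega) j
      have h4 := row_nonneg X (t := 1 + s) (by omega) (j + 1)
      exact abs_le.2 ⟨by omega, by omega⟩
  intro t ht htk
  have h1 := hg (t - 1) 0 (by omega)
  rw [show 1 + (t - 1) = t by omega] at h1
  obtain ⟨c, hc⟩ := row_odd_zero h0 hX t ht
  omega

/-- the first column becomes `1` -/
lemma lead_eq_one {X : ℕ → ℤ} (h0 : Even (X 0)) (hX : ∀ n, 1 ≤ n → Odd (X n)) {k l M : ℕ}
    (hM : 2 ≤ M) (hN : NoBlock X k l M)
    (hgap : ∀ j, j < k → |X (j + 1) - X j| ≤ 2 * (M : ℤ))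
    (hk : (2 * l + 1) * M ≤ k) : row X k 0 = 1 := by
  set T := 1 + l * (M - 1) with hT
  have hbig : T + (l + 1) * (M - 1) ≤ k := by
    obtain ⟨m, rfl⟩ : ∃ m, M = m + 1 := ⟨M - 1, by omega⟩
    have : (2 * l + 1) * (m + 1) = 1 + l * m + (l + 1) * m + 2 * l := by ring
    rw [this] at hk
    rw [hT]; simp only [Nat.add_sub_cancel]; omega
  have htwo : ∀ t, T ≤ t → 1 + t ≤ k → row X t 1 = 0 ∨ row X t 1 = 2 := fun t ht htk =>
    rows_le_two hX (by omega) hN (fun j _ hjk => hgap j hjk) (by omega) le_rfl (by omega)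
  have hstep : ∀ t, T ≤ t → t + 1 ≤ k → row X (t + 1) 0 = |row X t 1 - row X t 0| := fun t _ _ => by
    rw [row_succ]
  have hpos : ∀ t, 1 ≤ t → 1 ≤ row X t 0 := fun t ht => by
    have h1 := row_nonneg X ht 0
    obtain ⟨c, hc⟩ := row_odd_zero h0 hX t ht
    omega
  -- monotone from T on
  have hmono : ∀ s t, T ≤ t → t + s ≤ k → row X (t + s) 0 ≤ row X t 0 := by
    intro s
    induction s with
    | zero => intro t _ _; simp
    | succ s ih =>
      intro t ht hts
      have h1 := ih t ht (by omega)
      have h2 := hstep (t + s) (by omega) (by omega)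
      have h3 := hpos (t + s) (by omega)
      have hodd := row_odd_zero h0 hX (t + s) (by omega)
      rw [← add_assoc, h2]
      obtain ⟨c, hc⟩ := hodd
      rcases htwo (t + s) (by omega) (by omega) with h4 | h4 <;> rw [h4]
      · rw [abs_of_nonpos (by omega)]; omega
      · refine abs_le.2 ⟨by omega, by omega⟩
  have hdec : ∀ r, r ≤ M - 1 → row X (T + (l + 1) * r) 0 = 1 ∨
      row X (T + (l + 1) * r) 0 ≤ 2 * (M : ℤ) - 1 - 2 * r := by
    intro r
    induction r with
    | zero =>
      intro _
      right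
      have := lead_le h0 hX hgap (T + (l + 1) * 0) (by omega) (by
        simp only [Nat.mul_zero, Nat.add_zero]; omega)
      simpa using this
    | succ r ih =>
      intro hr
      have hle : T + (l + 1) * (r + 1) ≤ k := by
        have : (l + 1) * (r + 1) ≤ (l + 1) * (M - 1) := Nat.mul_le_mul_left _ hr
        omega
      set T' := T + (l + 1) * r with hT'
      have hTT : T + (l + 1) * (r + 1) = T' + (l + 1) := by rw [hT']; ring
      rw [hTT] at hle ⊢
      have hm := hmono (l + 1) T' (by omega) hle
      have hp := hpos (T' + (l + 1)) (by omega)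
      rcases ih (by omega) with h1 | h1
      · left; omega
      · -- some row in T'..T'+l has second entry 2
        have hex : ∃ s, s ≤ l ∧ row X (T' + s) 1 = 2 := by
          by_contra hno
          push Not at hno
          have hz : ∀ s, s ≤ l → row X (T' + s) 1 = 0 := fun s hs => by
            rcases htwo (T' + s) (by omega) (by omega) with h4 | h4
            · exact h4
            · exact absurd h4 (hno s hs)
          have hzw := zero_window l T' 1 hz
          obtain ⟨i, hi, hi1, -⟩ := hN T' 1 4 (by omega) le_rfl le_rfl (by omega) (by omega)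
          exact hi1 (hzw i hi)
        obtain ⟨s, hs, hs2⟩ := hex
        have h5 := hmono s T' (by omega) (by omega)
        have h6 := hstep (T' + s) (by omega) (by omega)
        rw [hs2] at h6
        have h7 := hpos (T' + s) (by omega)
        have h8 := hmono (l - s) (T' + s + 1) (by omega) (by omega)
        rw [show T' + s + 1 + (l - s) = T' + (l + 1) by omega] at h8
        obtain ⟨c, hc⟩ := row_odd_zero h0 hX (T' + s) (by omega)
        by_cases h9 : row X (T' + s) 0 = 1
        · rw [h9] at h6
          left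
          have : |(2 : ℤ) - 1| = 1 := by norm_num
          omega
        · right
          rw [abs_of_nonpos (by omega)] at h6
          push_cast
          omega
  have hfin := hdec (M - 1) le_rfl
  have h1 : row X (T + (l + 1) * (M - 1)) 0 = 1 := by
    rcases hfin with h | h
    · exact h
    · have := hpos (T + (l + 1) * (M - 1)) (by omega)
      have h3 : ((M - 1 : ℕ) : ℤ) = (M : ℤ) - 1 := by omega
      rw [h3] at h
      omega
  have h2 := hmono (k - (T + (l + 1) * (M - 1))) (T + (l + 1) * (M - 1)) (by omega) (by omega)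
  rw [show T + (l + 1) * (M - 1) + (k - (T + (l + 1) * (M - 1))) = k by omega, h1] at h2
  have h3 := hpos k (by omega)
  omega

end Pool.Agent.Gil
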