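import Mathlib
import Pool.Agent.Lib.MP_aba96a_nt.Det

/-!
# A failure of Gilbreath's statement forces long blocks in almost all rows
-/

set_option autoImplicit false

namespace Pool.Agent.Gil

/-- row `t` has a block of `l + 1` consecutive entries, all equal to `0` or to one even `V ≥ 4`,
inside the triangle of size `k` -/
def Blk (X : ℕ → ℤ) (k l M t : ℕ) : Prop :=
  ∃ j V : ℕ, 1 ≤ j ∧ 4 ≤ V ∧ V ≤ 2 * M ∧ Even V ∧ j + l + t ≤ k ∧
    ∀ i ≤ l, row X t (j + i) = 0 ∨ row X t (j + i) = (V : ℤ)

lemma drop_row {X : ℕ → ℤ} (hX : ∀ n, 1 ≤ n → Odd (X n)) {k l M t V : ℕ}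
    (hN : ¬ Blk X k l M t) (ht : 1 ≤ t) (hV : 4 ≤ V) (hVM : V ≤ 2 * M) (hVe : Even V)
    (h : ∀ j, 1 ≤ j → j + t ≤ k → row X t j ≤ (V : ℤ)) :
    ∀ j, 1 ≤ j → j + (t + l) ≤ k → row X (t + l) j ≤ (V : ℤ) - 2 := by
  intro j hj hjk
  have h1 := bound_step ht h l j hj hjk
  by_contra hcon
  have hev := row_even hX (t + l) (by omega) j hj
  have hVe' : Even (V : ℤ) := by exact_mod_cast hVe
  have heq : row X (t + l) j = V := by
    obtain ⟨c, hc⟩ := hev
    obtain ⟨d, hd⟩ := hVe'
    omega
  obtain ⟨hw, -⟩ := window (X := X) (V := (V : ℤ)) (by omega) l t j (fun s i hsi =>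
    ⟨row_nonneg X (by omega) _, bound_step ht h s (j + i) (by omega) (by omega)⟩) heq
  exact hN ⟨j, V, hj, hV, hVM, hVe, by omega, hw⟩

open Classical in
/-- rows without a block (and with room for one) -/
noncomputable def Exc (X : ℕ → ℤ) (k l M : ℕ) : Finset ℕ :=
  (Finset.Ico 1 (k - l)).filter (fun t => ¬ Blk X k l M t)

lemma Exc_prop {X : ℕ → ℤ} {k l M t : ℕ} (ht : t ∈ Exc X k l M) :
    1 ≤ t ∧ t + l + 1 ≤ k ∧ ¬ Blk X k l M t := by
  classical
  unfold Exc at ht
  rw [Finset.mem_filter, Finset.mem_Ico] at ht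
  exact ⟨ht.1.1, by omega, ht.2⟩

/-- take out the last exceptional row -/
lemma last_exc (E : Finset ℕ) (l T n : ℕ) (hE : 0 ∉ E)
    (h : (l + 1) * (n + 1) ≤ (E.filter (· < T)).card) :
    ∃ t ∈ E, t < T ∧ (l + 1) * n ≤ (E.filter (· < t - l)).card ∧ (n = 0 ∨ l ≤ t) := by
  have hne : (E.filter (· < T)).Nonempty := by
    rw [← Finset.card_pos]
    have : 0 < (l + 1) * (n + 1) := by positivity
    omega
  obtain ⟨t, ht, hmax⟩ := Finset.exists_max_image _ id hne
  rw [Finset.mem_filter] at ht
  refine ⟨t, ht.1, ht.2, ?_, ?_⟩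
  · have hsub : E.filter (· < T) ⊆ E.filter (· < t - l) ∪ Finset.Icc (t - l) t := by
      intro u hu
      have h1 := hmax u hu
      simp only [id] at h1
      rw [Finset.mem_filter] at hu
      rw [Finset.mem_union, Finset.mem_filter, Finset.mem_Icc]
      by_cases h2 : u < t - l
      · exact Or.inl ⟨hu.1, h2⟩
      · exact Or.inr ⟨by omega, h1⟩
    have h2 := (Finset.card_le_card hsub).trans (Finset.card_union_le _ _)
    rw [Nat.card_Icc] at h2
    have h3 : (l + 1) * (n + 1) = (l + 1) * n + (l + 1) := by ring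
    omega
  · by_contra hcon
    push Not at hcon
    obtain ⟨h1, h2⟩ := hcon
    -- all exceptional rows below `T` are among `1..t`, so at most `l`
    have hsub : E.filter (· < T) ⊆ Finset.Icc 1 t := by
      intro u hu
      have h3 := hmax u hu
      simp only [id] at h3
      rw [Finset.mem_filter] at hu
      rw [Finset.mem_Icc]
      refine ⟨?_, h3⟩
      rcases Nat.eq_zero_or_pos u with rfl | h4
      · exact absurd hu.1 hE
      · exact h4
    have h3 := Finset.card_le_card hsub
    rw [Nat.card_Icc] at h3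
    have h4 : (l + 1) * (n + 1) = (l + 1) * n + (l + 1) := by ring
    omega

lemma exc_rows {X : ℕ → ℤ} (hX : ∀ n, 1 ≤ n → Odd (X n)) {k l M : ℕ}
    (hgap : ∀ j, 1 ≤ j → j < k → |X (j + 1) - X j| ≤ 2 * (M : ℤ)) :
    ∀ r, r + 1 ≤ M → ∀ T, (l + 1) * r ≤ ((Exc X k l M).filter (· < T)).card →
      ∀ t', 1 ≤ t' → (r = 0 ∨ T + l ≤ t') → ∀ j, 1 ≤ j → j + t' ≤ k →
        row X t' j ≤ 2 * ((M - r : ℕ) : ℤ) := by
  have hE0 : 0 ∉ Exc X k l M := fun h => by have := (Exc_prop h).1; omega
  intro r
  induction r with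
  | zero =>
    intro hM T _ t' ht' _ j hj hjk
    have h1 : ∀ j, 1 ≤ j → j + 1 ≤ k → row X 1 j ≤ 2 * (M : ℤ) := by
      intro j hj hjk
      have : row X 1 j = |X (j + 1) - X j| := by
        rw [show 1 = 0 + 1 by omega, row_succ]; rfl
      rw [this]
      exact hgap j hj (by omega)
    have h2 := bound_step (X := X) (k := k) (t := 1) (B := 2 * (M : ℤ)) le_rfl h1 (t' - 1) j hj
      (by omega)
    rw [show 1 + (t' - 1) = t' by omega] at h2
    simpa using h2
  | succ r ih =>
    intro hM T hT t' ht' hTt j hj hjk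
    have hTt' : T + l ≤ t' := by
      rcases hTt with h | h
      · omega
      · exact h
    obtain ⟨t, htE, htT, hcard, hl⟩ := last_exc (Exc X k l M) l T r hE0 hT
    obtain ⟨h1, h2, h3⟩ := Exc_prop htE
    have h4 := ih (by omega) (t - l) hcard t h1 (by omega)
    have h5 := drop_row hX h3 h1 (V := 2 * (M - r)) (by omega) (by omega) (even_two_mul _)
      (fun j hj hjk => by
        have := h4 j hj hjk
        push_cast; exact_mod_cast this)
    have h6 := bound_step (X := X) (k := k) (t := t + l) (B := ((2 * (M - r) : ℕ) : ℤ) - 2)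
      (by omega) h5 (t' - (t + l)) j hj (by omega)
    rw [show t + l + (t' - (t + l)) = t' by omega] at h6
    have h7 : ((2 * (M - r) : ℕ) : ℤ) - 2 = 2 * ((M - (r + 1) : ℕ) : ℤ) := by omega
    rwa [h7] at h6

lemma exc_lead {X : ℕ → ℤ} (h0 : Even (X 0)) (hX : ∀ n, 1 ≤ n → Odd (X n)) {k l M : ℕ}
    (hM2 : 2 ≤ M) (hgap : ∀ j, j < k → |X (j + 1) - X j| ≤ 2 * (M : ℤ)) :
    ∀ r, r + 1 ≤ M → ∀ T, (l + 1) * (M - 1 + r) ≤ ((Exc X k l M).filter (· < T)).card →
      ∀ t', T + l ≤ t' → t' ≤ k → 1 ≤ t' →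
        row X t' 0 = 1 ∨ row X t' 0 ≤ 2 * (M : ℤ) - 1 - 2 * r := by
  have hE0 : 0 ∉ Exc X k l M := fun h => by have := (Exc_prop h).1; omega
  intro r
  induction r with
  | zero =>
    intro _ T _ t' _ htk ht'
    right
    have := lead_le h0 hX hgap t' ht' htk
    simpa using this
  | succ r ih =>
    intro hM T hT t' hTt htk ht'
    obtain ⟨t, htE, htT, hcard, hl⟩ := last_exc (Exc X k l M) l T (M - 1 + r) hE0
      (by rw [show M - 1 + r + 1 = M - 1 + (r + 1) by omega]; exact hT)
    obtain ⟨h1, h2, h3⟩ := Exc_prop htE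
    have hlt : l ≤ t := by
      rcases hl with h | h
      · omega
      · exact h
    -- rows from `t` on are `{0,2}`-valued
    have hcard' : (l + 1) * (M - 1) ≤ ((Exc X k l M).filter (· < t - l)).card :=
      le_trans (Nat.mul_le_mul_left _ (by omega)) hcard
    have htwo : ∀ s, t ≤ s → 1 + s ≤ k → row X s 1 = 0 ∨ row X s 1 = 2 := by
      intro s hs hsk
      have h4 := exc_rows hX (fun j _ hjk => hgap j hjk) (M - 1) (by omega) (t - l) hcard' s
        (by omega) (by omega) 1 le_rfl hsk
      rw [show M - (M - 1) = 1 by omega] at h4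
      have h5 := row_nonneg X (t := s) (by omega) 1
      obtain ⟨c, hc⟩ := row_even hX s (by omega) 1 le_rfl
      push_cast at h4
      omega
    have hpos : ∀ s, 1 ≤ s → 1 ≤ row X s 0 := fun s hs => by
      have h4 := row_nonneg X hs 0
      obtain ⟨c, hc⟩ := row_odd_zero h0 hX s hs
      omega
    have hmono : ∀ n s, t ≤ s → s + n ≤ k → row X (s + n) 0 ≤ row X s 0 := by
      intro n
      induction n with
      | zero => intro s _ _; simp
      | succ n ihn =>
        intro s hs hsn
        have h4 := ihn s hs (by omega)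
        have h5 := hpos (s + n) (by omega)
        obtain ⟨c, hc⟩ := row_odd_zero h0 hX (s + n) (by omega)
        rw [← add_assoc, row_succ]
        rcases htwo (s + n) (by omega) (by omega) with h6 | h6
        · rw [Nat.zero_add, h6, abs_of_nonpos (by omega)]; omega
        · rw [Nat.zero_add, h6]
          exact abs_le.2 ⟨by omega, by omega⟩
    have hmt := hmono (t' - t) t le_rfl (by omega)
    rw [show t + (t' - t) = t' by omega] at hmt
    have hp' := hpos t' ht'
    rcases ih (by omega) (t - l) hcard t (by omega) (by omega) h1 with h4 | h4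
    · left; omega
    · -- some row among `t..t+l` has second entry `2`
      have hex : ∃ s, s ≤ l ∧ row X (t + s) 1 = 2 := by
        by_contra hno
        push Not at hno
        have hz : ∀ s, s ≤ l → row X (t + s) 1 = 0 := fun s hs => by
          rcases htwo (t + s) (by omega) (by omega) with h5 | h5
          · exact h5
          · exact absurd h5 (hno s hs)
        have hzw := zero_window l t 1 hz
        exact h3 ⟨1, 4, le_rfl, le_rfl, by omega, by decide, by omega,
          fun i hi => Or.inl (hzw i hi)⟩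
      obtain ⟨s, hs, hs2⟩ := hex
      have h5 := hmono s t le_rfl (by omega)
      have h6 := hpos (t + s) (by omega)
      have h7 := hmono (t' - (t + s + 1)) (t + s + 1) (by omega) (by omega)
      rw [show t + s + 1 + (t' - (t + s + 1)) = t' by omega, row_succ, Nat.zero_add, hs2] at h7
      obtain ⟨c, hc⟩ := row_odd_zero h0 hX (t + s) (by omega)
      by_cases h9 : row X (t + s) 0 = 1
      · left
        rw [h9] at h7
        have : |(2 : ℤ) - 1| = 1 := by norm_num
        omega
      · right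
        rw [abs_of_nonpos (by omega)] at h7
        push_cast
        omega

open Classical in
/-- The counting theorem: if the first entry of row `k` is not `1`, then all but at most
`2 (l + 1) M` of the rows `1, ..., k` have a block. -/
theorem block_count {X : ℕ → ℤ} (h0 : Even (X 0)) (hX : ∀ n, 1 ≤ n → Odd (X n)) {k l M : ℕ}
    (hM2 : 2 ≤ M) (hgap : ∀ j, j < k → |X (j + 1) - X j| ≤ 2 * (M : ℤ)) (hk : l < k)
    (hfail : row X k 0 ≠ 1) :
    ((Finset.Icc 1 k).filter (fun t => ¬ Blk X k l M t)).card ≤ 2 * (l + 1) * M := by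
  have hlt : ((Exc X k l M).filter (· < k - l)).card < (l + 1) * (2 * M - 2) := by
    by_contra hcon
    push Not at hcon
    have h1 := exc_lead h0 hX hM2 hgap (l := l) (M - 1) (by omega) (k - l)
      (by rw [show M - 1 + (M - 1) = 2 * M - 2 by omega]; exact hcon) k (by omega) le_rfl (by omega)
    rcases h1 with h1 | h1
    · exact hfail h1
    · have h2 := row_nonneg X (t := k) (by omega) 0
      obtain ⟨c, hc⟩ := row_odd_zero h0 hX k (by omega)
      have h3 : ((M - 1 : ℕ) : ℤ) = (M : ℤ) - 1 := by omega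
      rw [h3] at h1
      apply hfail
      omega
  have hsub : (Finset.Icc 1 k).filter (fun t => ¬ Blk X k l M t) ⊆
      ((Exc X k l M).filter (· < k - l)) ∪ Finset.Icc (k - l) k := by
    intro t ht
    rw [Finset.mem_filter, Finset.mem_Icc] at ht
    rw [Finset.mem_union, Finset.mem_filter, Finset.mem_Icc]
    by_cases h : t < k - l
    · left
      refine ⟨?_, h⟩
      unfold Exc
      rw [Finset.mem_filter, Finset.mem_Ico]
      exact ⟨⟨ht.1.1, h⟩, ht.2⟩
    · right; omega
  have h2 := (Finset.card_le_card hsub).trans (Finset.card_union_le _ _)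
  rw [Nat.card_Icc] at h2
  obtain ⟨m, rfl⟩ : ∃ m, M = m + 2 := ⟨M - 2, by omega⟩
  have h3 : (l + 1) * (2 * (m + 2) - 2) = 2 * (l + 1) * m + 2 * (l + 1) := by
    rw [show 2 * (m + 2) - 2 = 2 * m + 2 by omega]; ring
  have h4 : 2 * (l + 1) * (m + 2) = 2 * (l + 1) * m + 4 * (l + 1) := by ring
  rw [h3] at hlt
  rw [h4]
  omega

end Pool.Agent.Gil
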