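import Mathlib
import Pool.Agent.Lib.MP_aba96a_nt.Det

/-!
# Gilbreath tables of random sequences: the probabilistic engine

`Spread μ X n θ`: given the past, the law of `X n` puts mass at most `θ` on every set without two
elements at distance `2`.  Under this assumption long `{0,V}`-blocks are exponentially unlikely.
-/

set_option autoImplicit false

open MeasureTheory Filter
open scoped ENNReal

namespace Pool.Agent.Gil

variable {Ω : Type*} [MeasurableSpace Ω]

/-- given the past, the law of `X n` puts mass at most `θ` on every set without two elements at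
distance `2` -/
def Spread (μ : Measure Ω) (X : ℕ → Ω → ℤ) (n : ℕ) (θ : ℝ≥0∞) : Prop :=
  ∀ (a : ℕ → ℤ) (S : Set ℤ), (∀ v ∈ S, v + 2 ∉ S) →
    μ {ω | (∀ i < n, X i ω = a i) ∧ X n ω ∈ S} ≤ θ * μ {ω | ∀ i < n, X i ω = a i}

lemma spread_one (μ : Measure Ω) (X : ℕ → Ω → ℤ) (n : ℕ) : Spread μ X n 1 := by
  intro a S _
  rw [one_mul]
  exact measure_mono fun ω h => h.1

lemma partition (μ : Measure Ω) {X : ℕ → Ω → ℤ} (hX : ∀ n, Measurable (X n)) (n : ℕ)
    (E : Set Ω) : μ E = ∑' y : Fin n → ℤ, μ (E ∩ {ω | ∀ i : Fin n, X i ω = y i}) := by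
  have hC : ∀ y : Fin n → ℤ, MeasurableSet {ω | ∀ i : Fin n, X i ω = y i} := by
    intro y
    have : {ω | ∀ i : Fin n, X i ω = y i} = ⋂ i : Fin n, (X i) ⁻¹' {y i} := by
      ext ω; simp
    rw [this]
    exact MeasurableSet.iInter fun i => hX i (measurableSet_singleton _)
  have hdisj : Pairwise (Function.onFun Disjoint
      fun y : Fin n → ℤ => {ω | ∀ i : Fin n, X i ω = y i}) := by
    intro y z hyz
    rw [Function.onFun, Set.disjoint_left]
    intro ω hy hz
    exact hyz (funext fun i => by rw [← hy i, hz i])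
  have hun : (⋃ y : Fin n → ℤ, {ω | ∀ i : Fin n, X i ω = y i}) = Set.univ := by
    ext ω
    simp only [Set.mem_iUnion, Set.mem_setOf_eq, Set.mem_univ, iff_true]
    exact ⟨fun i => X i ω, fun i => rfl⟩
  have h := measure_iUnion (μ := μ.restrict E) hdisj hC
  rw [hun, Measure.restrict_apply_univ] at h
  rw [h]
  refine tsum_congr fun y => ?_
  rw [Measure.restrict_apply (hC y), Set.inter_comm]

theorem decay (μ : Measure Ω) [IsProbabilityMeasure μ] {X : ℕ → Ω → ℤ}
    (hX : ∀ n, Measurable (X n)) (G : ℕ → (ℕ → ℤ) → Prop) (m : ℕ)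
    (hloc : ∀ s x y, (∀ i ≤ m + s, x i = y i) → G s x → G s y)
    (hsep : ∀ s x, G s x → ¬ G s (Function.update x (m + s) (x (m + s) + 2)))
    (θ : ℕ → ℝ≥0∞) (hθ : ∀ n, Spread μ X n (θ n)) (l : ℕ) :
    μ {ω | ∀ s < l, G s (fun i => X i ω)} ≤ ∏ n ∈ Finset.Ico m (m + l), θ n := by
  induction l with
  | zero => simp
  | succ l ih =>
    rw [← add_assoc, Finset.prod_Ico_succ_top (by omega), mul_comm]
    refine le_trans ?_ (mul_le_mul_right ih (θ (m + l)))
    rw [partition μ hX (m + l) {ω | ∀ s < l + 1, G s (fun i => X i ω)},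
      partition μ hX (m + l) {ω | ∀ s < l, G s (fun i => X i ω)}, ← ENNReal.tsum_mul_left]
    refine ENNReal.tsum_le_tsum fun y => ?_
    set C : Set Ω := {ω | ∀ i : Fin (m + l), X i ω = y i} with hC
    by_cases hne : ({ω | ∀ s < l, G s (fun i => X i ω)} ∩ C).Nonempty
    · obtain ⟨ω₀, h1, h2⟩ := hne
      have hsub : C ⊆ {ω | ∀ s < l, G s (fun i => X i ω)} := by
        intro ω hω s hs
        refine hloc s (fun i => X i ω₀) _ (fun i hi => ?_) (h1 s hs)
        have e1 := h2 ⟨i, by omega⟩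
        have e2 := hω ⟨i, by omega⟩
        simp only at e1 e2 ⊢
        rw [e1, e2]
      rw [Set.inter_eq_right.2 hsub]
      set a : ℕ → ℤ := fun i => X i ω₀ with ha
      have hCa : C = {ω | ∀ i < m + l, X i ω = a i} := by
        ext ω
        simp only [hC, Set.mem_setOf_eq]
        constructor
        · intro h i hi
          rw [ha, h ⟨i, hi⟩, ← h2 ⟨i, hi⟩]
        · intro h i
          rw [h i i.2, ha]; exact h2 i
      have hS := hθ (m + l) a {v | G l (Function.update a (m + l) v)} (fun v hv hv2 => by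
        have h3 := hsep l _ hv
        simp only [Function.update_self, Function.update_idem] at h3
        exact h3 hv2)
      rw [← hCa] at hS
      refine le_trans (measure_mono ?_) hS
      rintro ω ⟨h3, h4⟩
      rw [hCa] at h4
      refine ⟨h4, ?_⟩
      refine hloc l (fun i => X i ω) _ (fun i hi => ?_) (h3 l (by omega))
      rcases Nat.lt_or_ge i (m + l) with h5 | h5
      · rw [Function.update_of_ne (by omega)]; exact h4 i h5
      · obtain rfl : i = m + l := by omega
        rw [Function.update_self]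
    · rw [Set.not_nonempty_iff_eq_empty] at hne
      have : {ω | ∀ s < l + 1, G s (fun i => X i ω)} ∩ C = ∅ := by
        apply Set.eq_empty_of_subset_empty
        rw [← hne]
        exact Set.inter_subset_inter_left _ fun ω h s hs => h s (by omega)
      rw [this, measure_empty]
      exact zero_le

/-- long `{0,V}` blocks are unlikely -/
theorem block_prob (μ : Measure Ω) [IsProbabilityMeasure μ] {X : ℕ → Ω → ℤ}
    (hX : ∀ n, Measurable (X n)) (hodd : ∀ ω n, 1 ≤ n → Odd (X n ω))
    (θ : ℕ → ℝ≥0∞) (hθ : ∀ n, Spread μ X n (θ n)) {t j V : ℕ} (l : ℕ) (hj : 1 ≤ j)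
    (hV : 4 ≤ V) :
    μ {ω | ∀ i ≤ l, row (fun n => X n ω) t (j + i) = 0 ∨ row (fun n => X n ω) t (j + i) = (V : ℤ)}
      ≤ ∏ n ∈ Finset.Ico (j + t) (j + t + (l + 1)), θ n := by
  have h := decay μ hX (fun s x => (∀ n, 1 ≤ n → n ≤ j + t + s → Odd (x n)) ∧
    (row x t (j + s) = 0 ∨ row x t (j + s) = (V : ℤ))) (j + t) ?_ ?_ θ hθ (l + 1)
  · refine le_trans (measure_mono ?_) h
    intro ω hω s hs
    exact ⟨fun n hn _ => hodd ω n hn, hω s (by omega)⟩
  · rintro s x y hxy ⟨h1, h2⟩
    refine ⟨fun n hn hn' => by rw [← hxy n hn']; exact h1 n hn hn', ?_⟩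
    rwa [← row_local t (j + s) (fun i _ hi => hxy i (by omega))]
  · rintro s x ⟨h1, h2⟩ ⟨-, h4⟩
    set x' : ℕ → ℤ := fun n => if n ≤ j + t + s then x n else 1 with hx'
    have hx'odd : ∀ n, 1 ≤ n → Odd (x' n) := by
      intro n hn
      by_cases h5 : n ≤ j + t + s
      · simp only [hx', if_pos h5]; exact h1 n hn h5
      · simp only [hx', if_neg h5]; exact odd_one
    have hf := fold hx'odd t (j + s) (by omega)
    have e0 : x' (j + t + s) = x (j + t + s) := by simp [hx']
    have e1 : row x t (j + s) = row x' t (j + s) :=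
      row_local t (j + s) (fun i _ hi => by simp only [hx']; rw [if_pos (by omega)])
    have e2 : row (Function.update x (j + t + s) (x (j + t + s) + 2)) t (j + s) =
        row (Function.update x' (j + t + s) (x' (j + t + s) + 2)) t (j + s) := by
      refine row_local t (j + s) (fun i _ hi => ?_)
      rcases eq_or_ne i (j + t + s) with rfl | hne
      · rw [Function.update_self, Function.update_self, e0]
      · rw [Function.update_of_ne hne, Function.update_of_ne hne]
        simp only [hx']; rw [if_pos (by omega)]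
    rw [show j + s + t = j + t + s by omega] at hf
    rw [e1] at h2
    rw [e2] at h4
    omega

/-- The engine: almost surely there are no long blocks in the triangle of size `k`, for all large
`k`. -/
theorem noBlock_ae (μ : Measure Ω) [IsProbabilityMeasure μ] {X : ℕ → Ω → ℤ}
    (hX : ∀ n, Measurable (X n)) (hodd : ∀ ω n, 1 ≤ n → Odd (X n ω))
    (θ : ℕ → ℝ≥0∞) (hθ : ∀ n, Spread μ X n (θ n)) (l M : ℕ → ℕ)
    (hprod : ∀ᶠ k : ℕ in atTop, ∀ m ≤ k,
      ∏ n ∈ Finset.Ico m (m + (l k + 1)), θ n ≤ ENNReal.ofReal (1 / (k : ℝ) ^ 5))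
    (hM : ∀ᶠ k : ℕ in atTop, M k ≤ k) :
    ∀ᵐ ω ∂μ, ∀ᶠ k : ℕ in atTop, NoBlock (fun n => X n ω) k (l k) (M k) := by
  obtain ⟨K₀, hK₀⟩ := eventually_atTop.1 (hprod.and hM)
  set K := max K₀ 1 with hKdef
  set s : ℕ → Set Ω := fun k => if K ≤ k then
    {ω | ¬ NoBlock (fun n => X n ω) k (l k) (M k)} else ∅ with hs
  have hbound : ∀ k, μ (s k) ≤ ENNReal.ofReal (12 / (k : ℝ) ^ 2) := by
    intro k
    by_cases hk : K ≤ k
    · obtain ⟨hp, hMk⟩ := hK₀ k (le_trans (le_max_left _ _) hk)
      have hk1 : 1 ≤ k := le_trans (le_max_right _ _) hk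
      simp only [hs, if_pos hk]
      set B : ℕ → ℕ → ℕ → Set Ω := fun t j V => if 1 ≤ j ∧ 4 ≤ V ∧ j + t ≤ k then
        {ω | ∀ i ≤ l k, row (fun n => X n ω) t (j + i) = 0 ∨
          row (fun n => X n ω) t (j + i) = (V : ℤ)} else ∅ with hB
      have hBm : ∀ t j V, μ (B t j V) ≤ ENNReal.ofReal (1 / (k : ℝ) ^ 5) := by
        intro t j V
        by_cases hc : 1 ≤ j ∧ 4 ≤ V ∧ j + t ≤ k
        · simp only [hB, if_pos hc]
          exact (block_prob μ hX hodd θ hθ (l k) hc.1 hc.2.1).trans (hp (j + t) hc.2.2)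
        · simp only [hB, if_neg hc, measure_empty]; exact zero_le
      have hsub : {ω | ¬ NoBlock (fun n => X n ω) k (l k) (M k)} ⊆
          ⋃ t ∈ Finset.range (k + 1), ⋃ j ∈ Finset.range (k + 1),
            ⋃ V ∈ Finset.range (2 * k + 1), B t j V := by
        intro ω hω
        simp only [Set.mem_setOf_eq, NoBlock] at hω
        push Not at hω
        obtain ⟨t, j, V, ht, hj, hV, hVM, hjk, hall⟩ := hω
        simp only [Set.mem_iUnion, Finset.mem_range, exists_prop]
        refine ⟨t, by omega, j, by omega, V, by omega, ?_⟩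
        simp only [hB]
        rw [if_pos ⟨hj, hV, by omega⟩]
        intro i hi
        by_cases h0 : row (fun n => X n ω) t (j + i) = 0
        · exact Or.inl h0
        · exact Or.inr (hall i hi h0)
      refine (measure_mono hsub).trans ?_
      have hkR : (1 : ℝ) ≤ k := by exact_mod_cast hk1
      calc μ (⋃ t ∈ Finset.range (k + 1), ⋃ j ∈ Finset.range (k + 1),
            ⋃ V ∈ Finset.range (2 * k + 1), B t j V)
          ≤ ∑ t ∈ Finset.range (k + 1), ∑ j ∈ Finset.range (k + 1),
            ∑ V ∈ Finset.range (2 * k + 1), μ (B t j V) := by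
            refine (measure_biUnion_finset_le _ _).trans (Finset.sum_le_sum fun t _ => ?_)
            refine (measure_biUnion_finset_le _ _).trans (Finset.sum_le_sum fun j _ => ?_)
            exact measure_biUnion_finset_le _ _
        _ ≤ ∑ t ∈ Finset.range (k + 1), ∑ j ∈ Finset.range (k + 1),
            ∑ V ∈ Finset.range (2 * k + 1), ENNReal.ofReal (1 / (k : ℝ) ^ 5) :=
            Finset.sum_le_sum fun t _ => Finset.sum_le_sum fun j _ =>
              Finset.sum_le_sum fun V _ => hBm t j V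
        _ = ENNReal.ofReal (((k : ℝ) + 1) * (((k : ℝ) + 1) * ((2 * (k : ℝ) + 1) *
              (1 / (k : ℝ) ^ 5)))) := by
            simp only [Finset.sum_const, Finset.card_range, nsmul_eq_mul]
            rw [ENNReal.ofReal_mul (by positivity), ENNReal.ofReal_mul (by positivity),
              ENNReal.ofReal_mul (by positivity)]
            have e1 : ENNReal.ofReal ((k : ℝ) + 1) = ((k + 1 : ℕ) : ℝ≥0∞) := by
              rw [← ENNReal.ofReal_natCast]; push_cast; rfl
            have e2 : ENNReal.ofReal (2 * (k : ℝ) + 1) = ((2 * k + 1 : ℕ) : ℝ≥0∞) := by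
              rw [← ENNReal.ofReal_natCast]; push_cast; rfl
            rw [e1, e2]
        _ ≤ ENNReal.ofReal (12 / (k : ℝ) ^ 2) := by
            apply ENNReal.ofReal_le_ofReal
            have h1 : ((k : ℝ) + 1) ≤ 2 * k := by linarith
            have h2 : (2 * (k : ℝ) + 1) ≤ 3 * k := by linarith
            have hk0 : (0 : ℝ) < k := by linarith
            calc ((k : ℝ) + 1) * (((k : ℝ) + 1) * ((2 * (k : ℝ) + 1) * (1 / (k : ℝ) ^ 5)))
                ≤ (2 * k) * ((2 * k) * ((3 * k) * (1 / (k : ℝ) ^ 5))) := by gcongr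
              _ = 12 / (k : ℝ) ^ 2 := by field_simp; ring
    · simp only [hs, if_neg hk, measure_empty]; exact zero_le
  have hsum : (∑' k, μ (s k)) ≠ ∞ := by
    refine ne_top_of_le_ne_top ?_ (ENNReal.tsum_le_tsum hbound)
    have hsm : Summable fun k : ℕ => 12 / (k : ℝ) ^ 2 := by
      have := (Real.summable_nat_pow_inv (p := 2)).2 (by norm_num)
      simpa [div_eq_mul_inv] using this.mul_left 12
    rw [← ENNReal.ofReal_tsum_of_nonneg (fun k => by positivity) hsm]
    exact ENNReal.ofReal_ne_top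
  filter_upwards [ae_eventually_notMem hsum] with ω hω
  filter_upwards [hω, eventually_ge_atTop K] with k hk hKk
  simp only [hs, if_pos hKk, Set.mem_setOf_eq, not_not] at hk
  exact hk

/-- The engine, full conclusion. -/
theorem engine (μ : Measure Ω) [IsProbabilityMeasure μ] {X : ℕ → Ω → ℤ}
    (hX : ∀ n, Measurable (X n)) (h0 : ∀ ω, Even (X 0 ω)) (hodd : ∀ ω n, 1 ≤ n → Odd (X n ω))
    (θ : ℕ → ℝ≥0∞) (hθ : ∀ n, Spread μ X n (θ n)) (l M : ℕ → ℕ)
    (hprod : ∀ᶠ k : ℕ in atTop, ∀ m ≤ k,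
      ∏ n ∈ Finset.Ico m (m + (l k + 1)), θ n ≤ ENNReal.ofReal (1 / (k : ℝ) ^ 5))
    (hM : ∀ᶠ k : ℕ in atTop, 2 ≤ M k ∧ M k ≤ k)
    (hgap : ∀ᵐ ω ∂μ, ∀ᶠ k : ℕ in atTop, ∀ j < k, |X (j + 1) ω - X j ω| ≤ 2 * (M k : ℤ)) :
    ∀ᵐ ω ∂μ, ∀ᶠ k : ℕ in atTop,
      (∀ t j, 1 + l k * (M k - 1) ≤ t → 1 ≤ j → j + t ≤ k →
        row (fun n => X n ω) t j = 0 ∨ row (fun n => X n ω) t j = 2) ∧
      ((2 * l k + 1) * M k ≤ k → row (fun n => X n ω) k 0 = 1) := by
  filter_upwards [noBlock_ae μ hX hodd θ hθ l M hprod (hM.mono fun k h => h.2), hgap]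
    with ω h1 h2
  filter_upwards [h1, h2, hM] with k hN hg hMk
  exact ⟨fun t j ht hj hjk => rows_le_two (hodd ω) (by omega) hN (fun j _ hjk => hg j hjk) ht hj hjk,
    fun hk => lead_eq_one (h0 ω) (hodd ω) hMk.1 hN hg hk⟩

end Pool.Agent.Gil
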