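import Mathlib
import Pool.Agent.Lib.MP_aba96a_nt.Decay

/-!
# The engine with a constant decay factor
-/

set_option autoImplicit false

open MeasureTheory Filter
open scoped ENNReal

namespace Pool.Agent.Gil

variable {Ω : Type*} [MeasurableSpace Ω]

noncomputable def cth (δ : ℝ) (n₀ n : ℕ) : ℝ≥0∞ := if n < n₀ then 1 else ENNReal.ofReal (1 - δ)

lemma cth_prod {δ : ℝ} (hδ : 0 ≤ δ) (n₀ m L : ℕ) :
    ∏ n ∈ Finset.Ico m (m + L), cth δ n₀ n ≤
      ENNReal.ofReal (Real.exp (-(δ * ((L : ℝ) - n₀)))) := by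
  have hle1 : ∀ n, cth δ n₀ n ≤ 1 := by
    intro n
    unfold cth
    split_ifs
    · exact le_rfl
    · rw [← ENNReal.ofReal_one]
      exact ENNReal.ofReal_le_ofReal (by linarith)
  set u := Finset.Ico (max m n₀) (m + L) with hu
  have hsub : u ⊆ Finset.Ico m (m + L) := Finset.Ico_subset_Ico (le_max_left _ _) le_rfl
  calc ∏ n ∈ Finset.Ico m (m + L), cth δ n₀ n ≤ ∏ n ∈ u, cth δ n₀ n :=
        Finset.prod_le_prod_of_subset_of_le_one' hsub (fun n _ _ => hle1 n)
    _ ≤ ∏ n ∈ u, ENNReal.ofReal (Real.exp (-δ)) := by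
        refine Finset.prod_le_prod' fun n hn => ?_
        have h1 := (Finset.mem_Ico.1 hn).1
        have h2 : n₀ ≤ n := le_trans (le_max_right _ _) h1
        unfold cth
        rw [if_neg (by omega)]
        apply ENNReal.ofReal_le_ofReal
        have := Real.add_one_le_exp (-δ)
        linarith
    _ = ENNReal.ofReal (Real.exp (-(δ * (u.card : ℝ)))) := by
        rw [Finset.prod_const, ← ENNReal.ofReal_pow (Real.exp_pos _).le, ← Real.exp_nat_mul]
        congr 2; ring
    _ ≤ _ := by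
        apply ENNReal.ofReal_le_ofReal
        apply Real.exp_le_exp.2
        have h3 : (L : ℝ) - n₀ ≤ (u.card : ℝ) := by
          have : L ≤ u.card + n₀ := by
            rw [hu, Nat.card_Ico]
            rcases le_total m n₀ with h | h
            · rw [max_eq_right h]; omega
            · rw [max_eq_left h]; omega
          have h4 : (L : ℝ) ≤ (u.card : ℝ) + n₀ := by exact_mod_cast this
          linarith
        nlinarith

lemma log_nat_tendsto : Tendsto (fun k : ℕ => Real.log k) atTop atTop :=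
  Real.tendsto_log_atTop.comp tendsto_natCast_atTop_atTop

/-- product bound for `l k = ⌈6 log k / δ⌉` -/
lemma const_hprod {δ : ℝ} (hδ : 0 < δ) (n₀ : ℕ) : ∀ᶠ k : ℕ in atTop, ∀ m ≤ k,
    ∏ n ∈ Finset.Ico m (m + (⌈6 * Real.log k / δ⌉₊ + 1)), cth δ n₀ n ≤
      ENNReal.ofReal (1 / (k : ℝ) ^ 5) := by
  filter_upwards [log_nat_tendsto.eventually_ge_atTop (δ * n₀), eventually_ge_atTop 1]
    with k h1 h2 m _
  have hk : (0 : ℝ) < k := by exact_mod_cast h2
  refine (cth_prod hδ.le n₀ m _).trans (ENNReal.ofReal_le_ofReal ?_)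
  have h3 : 6 * Real.log k / δ ≤ ⌈6 * Real.log k / δ⌉₊ := Nat.le_ceil _
  rw [div_le_iff₀ hδ] at h3
  calc Real.exp (-(δ * (((⌈6 * Real.log k / δ⌉₊ + 1 : ℕ) : ℝ) - n₀)))
      ≤ Real.exp (-(5 * Real.log k)) := by
        apply Real.exp_le_exp.2
        push_cast
        nlinarith
    _ = 1 / (k : ℝ) ^ 5 := by
        rw [Real.exp_neg, one_div]
        congr 1
        rw [show 5 * Real.log k = ((5 : ℕ) : ℝ) * Real.log k by norm_num, ← Real.log_pow,
          Real.exp_log (by positivity)]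

end Pool.Agent.Gil
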