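import Mathlib
import Pool.Agent.Lib.MP_aba96a_nt.Decay

/-!
# Random perturbations of a deterministic sequence
-/

set_option autoImplicit false

open MeasureTheory Filter ProbabilityTheory MeasurableSpace
open scoped ENNReal

namespace Pool.Agent.Gil

variable {Ω : Type*} [MeasurableSpace Ω]

open Classical in
/-- the perturbed sequence `b n + 2 ε n` (`n ≥ 1`), where `ε n` is the indicator of `A n` -/
noncomputable def pert (b : ℕ → ℤ) (A : ℕ → Set Ω) (n : ℕ) (ω : Ω) : ℤ :=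
  b n + if 1 ≤ n ∧ ω ∈ A n then 2 else 0

lemma meas_self (A : Set Ω) : MeasurableSet[generateFrom {A}] A :=
  measurableSet_generateFrom rfl

lemma pert_level (b : ℕ → ℤ) (A : ℕ → Set Ω) (n : ℕ) (z : ℤ) :
    MeasurableSet[generateFrom {A n}] {ω | pert b A n ω = z} := by
  have h : {ω | pert b A n ω = z} =
      (A n ∩ {_ω : Ω | b n + (if 1 ≤ n then 2 else 0) = z}) ∪ ((A n)ᶜ ∩ {_ω : Ω | b n = z}) := by
    ext ω
    by_cases h1 : ω ∈ A n <;> by_cases h2 : 1 ≤ n <;> simp [pert, h1, h2]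
  rw [h]
  refine MeasurableSet.union ?_ ?_
  · exact MeasurableSet.inter (meas_self _) (MeasurableSet.const _)
  · exact MeasurableSet.inter (meas_self _).compl (MeasurableSet.const _)

lemma gen_le {A : ℕ → Set Ω} (hA : ∀ n, MeasurableSet (A n)) (n : ℕ) {T : Set Ω}
    (hT : MeasurableSet[generateFrom {A n}] T) : MeasurableSet T := by
  have : generateFrom {A n} ≤ ‹MeasurableSpace Ω› := generateFrom_le (by
    rintro t rfl; exact hA n)
  exact this _ hT

lemma pert_measurable (b : ℕ → ℤ) {A : ℕ → Set Ω} (hA : ∀ n, MeasurableSet (A n)) (n : ℕ) :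
    Measurable (pert b A n) := by
  apply measurable_to_countable'
  intro z
  exact gen_le hA n (pert_level b A n z)

/-- independence in product form -/
lemma indep_last {μ : Measure Ω} {A : ℕ → Set Ω} (hind : iIndepSet A μ) (n : ℕ)
    (f : ℕ → Set Ω) (hf : ∀ i < n, MeasurableSet[generateFrom {A i}] (f i)) {T : Set Ω}
    (hT : MeasurableSet[generateFrom {A n}] T) :
    μ ((⋂ i ∈ Finset.range n, f i) ∩ T) = μ (⋂ i ∈ Finset.range n, f i) * μ T := by
  have h1 := (iIndepSet_iff A μ).1 hind (Finset.range n) (f := f)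
    (fun i hi => hf i (Finset.mem_range.1 hi))
  have h2 := (iIndepSet_iff A μ).1 hind (Finset.range (n + 1))
    (f := fun i => if i = n then T else f i) (fun i hi => by
      rw [Finset.mem_range] at hi
      by_cases h : i = n
      · subst h; simpa using hT
      · simp only [if_neg h]; exact hf i (by omega))
  have e1 : (⋂ i ∈ Finset.range (n + 1), (fun i => if i = n then T else f i) i) =
      (⋂ i ∈ Finset.range n, f i) ∩ T := by
    ext ω
    simp only [Set.mem_iInter, Finset.mem_range, Set.mem_inter_iff]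
    constructor
    · intro h
      refine ⟨fun i hi => ?_, ?_⟩
      · have := h i (by omega)
        rwa [if_neg (by omega)] at this
      · have := h n (by omega)
        rwa [if_pos rfl] at this
    · rintro ⟨h, h'⟩ i hi
      by_cases h3 : i = n
      · rw [if_pos h3]; exact h'
      · rw [if_neg h3]; exact h i (by omega)
  have e2 : ∏ i ∈ Finset.range (n + 1), μ ((fun i => if i = n then T else f i) i) =
      (∏ i ∈ Finset.range n, μ (f i)) * μ T := by
    rw [Finset.prod_range_succ]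
    congr 1
    · refine Finset.prod_congr rfl fun i hi => ?_
      rw [Finset.mem_range] at hi
      simp only [if_neg (show ¬ i = n by omega)]
    · simp
  rw [← e1, h2, e2, h1]

/-- the distance of the perturbation probability from `0` and `1` -/
noncomputable def rr (μ : Measure Ω) (A : ℕ → Set Ω) (n : ℕ) : ℝ :=
  min (μ.real (A n)) (1 - μ.real (A n))

lemma rr_nonneg (μ : Measure Ω) [IsProbabilityMeasure μ] (A : ℕ → Set Ω) (n : ℕ) :
    0 ≤ rr μ A n := by
  refine le_min measureReal_nonneg ?_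
  have := measureReal_le_one (μ := μ) (s := A n)
  linarith

lemma rr_le_one (μ : Measure Ω) [IsProbabilityMeasure μ] (A : ℕ → Set Ω) (n : ℕ) :
    rr μ A n ≤ 1 := by
  refine (min_le_left _ _).trans ?_
  exact measureReal_le_one

noncomputable def pth (μ : Measure Ω) (A : ℕ → Set Ω) (n : ℕ) : ℝ≥0∞ :=
  if n = 0 then 1 else ENNReal.ofReal (1 - rr μ A n)

lemma pert_spread {μ : Measure Ω} [IsProbabilityMeasure μ] (b : ℕ → ℤ) {A : ℕ → Set Ω}
    (hA : ∀ n, MeasurableSet (A n)) (hind : iIndepSet A μ) (n : ℕ) :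
    Spread μ (pert b A) n (pth μ A n) := by
  unfold pth
  rcases Nat.eq_zero_or_pos n with rfl | hn
  · rw [if_pos rfl]; exact spread_one μ _ 0
  rw [if_neg (by omega)]
  intro a S hS
  have hR : {ω | ∀ i < n, pert b A i ω = a i} =
      ⋂ i ∈ Finset.range n, {ω | pert b A i ω = a i} := by
    ext ω; simp
  have hR2 : ∀ i < n, MeasurableSet[generateFrom {A i}] {ω | pert b A i ω = a i} :=
    fun i _ => pert_level b A i (a i)
  by_cases hb : b n ∈ S
  · have hb2 : b n + 2 ∉ S := hS _ hb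
    have hsub : {ω | (∀ i < n, pert b A i ω = a i) ∧ pert b A n ω ∈ S} ⊆
        (⋂ i ∈ Finset.range n, {ω | pert b A i ω = a i}) ∩ (A n)ᶜ := by
      rintro ω ⟨h1, h2⟩
      refine ⟨by rw [← hR]; exact h1, fun h3 => hb2 ?_⟩
      unfold pert at h2
      rwa [if_pos ⟨hn, h3⟩] at h2
    refine (measure_mono hsub).trans ?_
    rw [indep_last hind n _ hR2 (meas_self (A n)).compl, mul_comm, hR]
    gcongr
    rw [prob_compl_eq_one_sub (hA n), ← ofReal_measureReal (μ := μ) (s := A n)]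
    rw [← ENNReal.ofReal_one, ← ENNReal.ofReal_sub _ measureReal_nonneg]
    apply ENNReal.ofReal_le_ofReal
    have := min_le_left (μ.real (A n)) (1 - μ.real (A n))
    unfold rr; linarith
  · have hsub : {ω | (∀ i < n, pert b A i ω = a i) ∧ pert b A n ω ∈ S} ⊆
        (⋂ i ∈ Finset.range n, {ω | pert b A i ω = a i}) ∩ (A n) := by
      rintro ω ⟨h1, h2⟩
      refine ⟨by rw [← hR]; exact h1, ?_⟩
      by_contra h3
      unfold pert at h2
      rw [if_neg (fun h => h3 h.2), add_zero] at h2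
      exact hb h2
    refine (measure_mono hsub).trans ?_
    rw [indep_last hind n _ hR2 (meas_self (A n)), mul_comm, hR]
    gcongr
    rw [← ofReal_measureReal (μ := μ) (s := A n)]
    apply ENNReal.ofReal_le_ofReal
    have := min_le_right (μ.real (A n)) (1 - μ.real (A n))
    unfold rr; linarith

/-- products of the decay factors over a window -/
lemma pth_prod (μ : Measure Ω) [IsProbabilityMeasure μ] (A : ℕ → Set Ω) (s : Finset ℕ)
    (u : Finset ℕ) (hus : u ⊆ s) (hu : ∀ n ∈ u, 1 ≤ n) :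
    ∏ n ∈ s, pth μ A n ≤ ENNReal.ofReal (Real.exp (-∑ n ∈ u, rr μ A n)) := by
  have hle1 : ∀ n, pth μ A n ≤ 1 := by
    intro n
    unfold pth
    split_ifs
    · exact le_rfl
    · rw [← ENNReal.ofReal_one]
      apply ENNReal.ofReal_le_ofReal
      have := rr_nonneg μ A n
      linarith
  calc ∏ n ∈ s, pth μ A n ≤ ∏ n ∈ u, pth μ A n :=
        Finset.prod_le_prod_of_subset_of_le_one' hus (fun n _ _ => hle1 n)
    _ ≤ ∏ n ∈ u, ENNReal.ofReal (Real.exp (-rr μ A n)) := by
        refine Finset.prod_le_prod' fun n hn => ?_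
        have h1 := hu n hn
        unfold pth
        rw [if_neg (by omega)]
        apply ENNReal.ofReal_le_ofReal
        have := Real.add_one_le_exp (-rr μ A n)
        linarith
    _ = ENNReal.ofReal (Real.exp (-∑ n ∈ u, rr μ A n)) := by
        rw [← ENNReal.ofReal_prod_of_nonneg (fun n _ => (Real.exp_pos _).le), ← Real.exp_sum,
          Finset.sum_neg_distrib]

lemma window_sum {r : ℕ → ℝ} (hr : ∀ n, 0 ≤ r n) {η : ℝ} (hη : 0 < η) {m₀ : ℕ}
    (h : ∀ m : ℕ, m₀ ≤ m → (1 : ℝ) ≤ ∑ n ∈ Finset.Ico m (m + ⌊(m : ℝ) ^ η⌋₊), r n)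
    {m K w : ℕ} (hm : m₀ ≤ m) (hw : (K : ℝ) ^ η ≤ w) (I : ℕ) (hI : m + I * w ≤ K) :
    (I : ℝ) ≤ ∑ n ∈ Finset.Ico m (m + I * w), r n := by
  induction I with
  | zero => simp
  | succ I ih =>
    have hI' : m + I * w ≤ K := by
      have : (I + 1) * w = I * w + w := by ring
      omega
    have h1 := ih hI'
    have h2 := h (m + I * w) (by omega)
    have h3 : ⌊((m + I * w : ℕ) : ℝ) ^ η⌋₊ ≤ w := by
      apply Nat.floor_le_of_le
      refine le_trans ?_ hw
      exact Real.rpow_le_rpow (by positivity) (by exact_mod_cast hI') hη.le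
    have h4 : (1 : ℝ) ≤ ∑ n ∈ Finset.Ico (m + I * w) (m + I * w + w), r n := by
      refine h2.trans (Finset.sum_le_sum_of_subset_of_nonneg ?_ (fun n _ _ => hr n))
      exact Finset.Ico_subset_Ico le_rfl (by omega)
    rw [show m + (I + 1) * w = m + I * w + w by ring,
      ← Finset.sum_Ico_consecutive r (Nat.le_add_right m (I * w)) (Nat.le_add_right _ w)]
    push_cast
    linarith

open Real in
/-- Random perturbations of a deterministic odd sequence with power-saving gaps. -/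
theorem perturbed {μ : Measure Ω} [IsProbabilityMeasure μ] {b : ℕ → ℤ} (hb0 : Even (b 0))
    (hb : ∀ n, 1 ≤ n → Odd (b n)) {η : ℝ} (hη : 0 < η) (hη3 : 3 * η < 1)
    (hgap : ∀ᶠ j : ℕ in atTop, |((b (j + 1) - b j : ℤ) : ℝ)| ≤ (j : ℝ) ^ (1 - 3 * η))
    {A : ℕ → Set Ω} (hA : ∀ n, MeasurableSet (A n)) (hind : iIndepSet A μ)
    (hwin : ∀ᶠ m : ℕ in atTop, (1 : ℝ) ≤ ∑ n ∈ Finset.Ico m (m + ⌊(m : ℝ) ^ η⌋₊), rr μ A n) :
    ∀ᵐ ω ∂μ, ∀ᶠ k : ℕ in atTop, row (fun n => pert b A n ω) k 0 = 1 ∧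
      ∀ t j : ℕ, (k : ℝ) ^ (1 - η / 2) ≤ t → 1 ≤ j → j + t ≤ k →
        row (fun n => pert b A n ω) t j = 0 ∨ row (fun n => pert b A n ω) t j = 2 := by
  set l : ℕ → ℕ := fun k => ⌈(k : ℝ) ^ (2 * η)⌉₊ with hl
  set M : ℕ → ℕ := fun k => ⌈(k : ℝ) ^ (1 - 3 * η)⌉₊ + 1 with hM
  have hM1 : ∀ k, 1 ≤ M k := fun k => by simp [hM]
  -- asymptotics
  have hcast : Tendsto (fun k : ℕ => (k : ℝ)) atTop atTop := tendsto_natCast_atTop_atTop
  have hlog : ∀ᶠ k : ℕ in atTop, (5 * Real.log k + 1) * ((2 * k : ℝ) ^ η + 1) + Real.log k ≤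
      (k : ℝ) ^ (2 * η) := by
    have e1 : ∀ᶠ x : ℝ in atTop, Real.log x ≤ x ^ (η / 2) * (1 / 100) := by
      have := (isLittleO_log_rpow_atTop (show 0 < η / 2 by linarith)).bound
        (show (0 : ℝ) < 1 / 100 by norm_num)
      filter_upwards [this, eventually_ge_atTop 1] with x hx hx1
      rw [Real.norm_eq_abs, Real.norm_eq_abs, abs_of_nonneg (Real.log_nonneg hx1),
        abs_of_nonneg (by positivity)] at hx
      linarith
    have e2 : ∀ᶠ x : ℝ in atTop, (1000 : ℝ) ≤ x ^ (η / 2) :=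
      (tendsto_rpow_atTop (show 0 < η / 2 by linarith)).eventually_ge_atTop 1000
    filter_upwards [hcast.eventually e1, hcast.eventually e2, hcast.eventually_ge_atTop 1]
      with k h1 h2 h3
    have h4 : (2 * (k : ℝ)) ^ η ≤ 2 * (k : ℝ) ^ η := by
      rw [Real.mul_rpow (by norm_num) (by positivity)]
      gcongr
      calc (2 : ℝ) ^ η ≤ 2 ^ (1 : ℝ) := Real.rpow_le_rpow_of_exponent_le (by norm_num) (by linarith)
        _ = 2 := by norm_num
    set y := (k : ℝ) ^ (η / 2) with hy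
    have h5 : (k : ℝ) ^ η = y * y := by
      rw [hy, ← Real.rpow_add (by linarith)]; ring_nf
    have h6 : (k : ℝ) ^ (2 * η) = y * y * (y * y) := by
      rw [← h5, ← Real.rpow_add (by linarith)]; ring_nf
    have hlog0 : 0 ≤ Real.log k := Real.log_nonneg h3
    have hy0 : 0 < y := by linarith
    calc (5 * Real.log k + 1) * ((2 * k : ℝ) ^ η + 1) + Real.log k
        ≤ (5 * (y * (1 / 100)) + 1) * (2 * (y * y) + 1) + y * (1 / 100) := by
          rw [← h5]; gcongr
      _ ≤ y * (3 * (y * y)) := by nlinarith [mul_pos hy0 hy0]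
      _ ≤ (k : ℝ) ^ (2 * η) := by rw [h6]; nlinarith [mul_pos hy0 (mul_pos hy0 hy0)]
  have hprod : ∀ᶠ k : ℕ in atTop, ∀ m ≤ k,
      ∏ n ∈ Finset.Ico m (m + (l k + 1)), pth μ A n ≤ ENNReal.ofReal (1 / (k : ℝ) ^ 5) := by
    obtain ⟨m₁, hm₁⟩ := eventually_atTop.1 hwin
    set m₀ := max m₁ 1 with hm₀
    have hlogm : ∀ᶠ k : ℕ in atTop, (m₀ : ℝ) ≤ Real.log k :=
      (Real.tendsto_log_atTop.comp hcast).eventually_ge_atTop _
    have hsmall : ∀ᶠ k : ℕ in atTop, (k : ℝ) ^ (2 * η) ≤ k := by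
      filter_upwards [eventually_ge_atTop 1] with k hk
      have : (1 : ℝ) ≤ k := by exact_mod_cast hk
      calc (k : ℝ) ^ (2 * η) ≤ (k : ℝ) ^ (1 : ℝ) :=
            Real.rpow_le_rpow_of_exponent_le this (by linarith)
        _ = k := Real.rpow_one _
    filter_upwards [hlog, hlogm, hsmall, eventually_ge_atTop 1] with k h1 h2 h3 h4 m hm
    have hk1 : (1 : ℝ) ≤ k := by exact_mod_cast h4
    set w := ⌈(2 * k : ℝ) ^ η⌉₊ with hw
    set I := ⌈5 * Real.log k⌉₊ with hI
    set m' := max m m₀ with hm'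
    have hlog0 : 0 ≤ Real.log k := Real.log_nonneg hk1
    have hw1 : (w : ℝ) ≤ (2 * k : ℝ) ^ η + 1 := (Nat.ceil_lt_add_one (by positivity)).le
    have hI1 : (I : ℝ) ≤ 5 * Real.log k + 1 := (Nat.ceil_lt_add_one (by positivity)).le
    have hIw : (I : ℝ) * w + m₀ ≤ (k : ℝ) ^ (2 * η) := by
      calc (I : ℝ) * w + m₀ ≤ (5 * Real.log k + 1) * ((2 * k : ℝ) ^ η + 1) + Real.log k := by
            gcongr
        _ ≤ _ := h1
    have hIwl : I * w + m₀ ≤ l k := by
      have : ((I * w + m₀ : ℕ) : ℝ) ≤ (l k : ℝ) := by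
        push_cast
        exact hIw.trans (Nat.le_ceil _)
      exact_mod_cast this
    have hIwk : I * w + m₀ ≤ k := by
      have : ((I * w + m₀ : ℕ) : ℝ) ≤ (k : ℝ) := by
        push_cast
        exact hIw.trans h3
      exact_mod_cast this
    have hm'le : m' ≤ m + m₀ := max_le (by omega) (by omega)
    have hsumI := window_sum (rr_nonneg μ A) hη (m₀ := m₀) (fun m hm => hm₁ m (by omega))
      (m := m') (K := 2 * k) (w := w) (le_max_right _ _)
      (by push_cast; exact Nat.le_ceil _) I (by omega)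
    refine (pth_prod μ A _ (Finset.Ico m' (m' + I * w)) ?_ ?_).trans ?_
    · exact Finset.Ico_subset_Ico (le_max_left _ _) (by omega)
    · intro n hn
      have := (Finset.mem_Ico.1 hn).1
      have h5 : m₀ ≤ m' := le_max_right _ _
      have h6 : 1 ≤ m₀ := le_max_right _ _
      omega
    · apply ENNReal.ofReal_le_ofReal
      calc Real.exp (-∑ n ∈ Finset.Ico m' (m' + I * w), rr μ A n)
          ≤ Real.exp (-(5 * Real.log k)) := by
            apply Real.exp_le_exp.2
            have : 5 * Real.log k ≤ I := Nat.le_ceil _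
            linarith
        _ = 1 / (k : ℝ) ^ 5 := by
            rw [Real.exp_neg, one_div]
            congr 1
            rw [show 5 * Real.log k = ((5 : ℕ) : ℝ) * Real.log k by norm_num, ← Real.log_pow,
              Real.exp_log (by positivity)]
  have hbig : ∀ᶠ k : ℕ in atTop, (2 * ((k : ℝ) ^ (2 * η) + 1) + 1) *
      ((k : ℝ) ^ (1 - 3 * η) + 2) ≤ k := by
    have e1 : ∀ᶠ x : ℝ in atTop, (15 : ℝ) ≤ x ^ η :=
      (tendsto_rpow_atTop hη).eventually_ge_atTop 15
    filter_upwards [hcast.eventually e1, hcast.eventually_ge_atTop 1] with k h1 h2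
    have h3 : (1 : ℝ) ≤ (k : ℝ) ^ (2 * η) := Real.one_le_rpow h2 (by linarith)
    have h4 : (1 : ℝ) ≤ (k : ℝ) ^ (1 - 3 * η) := Real.one_le_rpow h2 (by linarith)
    have h5 : (k : ℝ) ^ (2 * η) * (k : ℝ) ^ (1 - 3 * η) * (k : ℝ) ^ η = k := by
      rw [← Real.rpow_add (by linarith), ← Real.rpow_add (by linarith)]
      ring_nf
      exact Real.rpow_one _
    calc (2 * ((k : ℝ) ^ (2 * η) + 1) + 1) * ((k : ℝ) ^ (1 - 3 * η) + 2)
        ≤ (5 * (k : ℝ) ^ (2 * η)) * (3 * (k : ℝ) ^ (1 - 3 * η)) := by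
          gcongr <;> linarith
      _ = (k : ℝ) ^ (2 * η) * (k : ℝ) ^ (1 - 3 * η) * 15 := by ring
      _ ≤ (k : ℝ) ^ (2 * η) * (k : ℝ) ^ (1 - 3 * η) * (k : ℝ) ^ η := by gcongr
      _ = k := h5
  have hlM : ∀ᶠ k : ℕ in atTop, (2 * l k + 1) * M k ≤ k := by
    filter_upwards [hbig] with k hk
    have h1 : (l k : ℝ) ≤ (k : ℝ) ^ (2 * η) + 1 := (Nat.ceil_lt_add_one (by positivity)).le
    have h2 : (M k : ℝ) ≤ (k : ℝ) ^ (1 - 3 * η) + 2 := by
      have := (Nat.ceil_lt_add_one (show 0 ≤ (k : ℝ) ^ (1 - 3 * η) by positivity)).le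
      simp only [hM]; push_cast; linarith
    have : (((2 * l k + 1) * M k : ℕ) : ℝ) ≤ (k : ℝ) := by
      push_cast
      refine le_trans ?_ hk
      gcongr
    exact_mod_cast this
  have hMk : ∀ᶠ k : ℕ in atTop, 2 ≤ M k ∧ M k ≤ k := by
    filter_upwards [hlM, hcast.eventually_ge_atTop 1] with k h1 h2
    constructor
    · simp only [hM]
      have : 0 < ⌈(k : ℝ) ^ (1 - 3 * η)⌉₊ := Nat.ceil_pos.2 (by positivity)
      omega
    · refine le_trans ?_ h1
      calc M k = 1 * M k := (one_mul _).symm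
        _ ≤ (2 * l k + 1) * M k := Nat.mul_le_mul_right _ (by omega)
  have hg : ∀ ω : Ω, ∀ᶠ k : ℕ in atTop, ∀ j < k,
      |pert b A (j + 1) ω - pert b A j ω| ≤ 2 * (M k : ℤ) := by
    intro ω
    obtain ⟨J, hJ⟩ := eventually_atTop.1 hgap
    -- bound of the finitely many initial gaps
    set C : ℝ := ∑ j ∈ Finset.range J, |((b (j + 1) - b j : ℤ) : ℝ)| with hC
    have hCk : ∀ᶠ k : ℕ in atTop, C ≤ (k : ℝ) ^ (1 - 3 * η) := by
      have : Tendsto (fun x : ℝ => x ^ (1 - 3 * η)) atTop atTop :=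
        tendsto_rpow_atTop (by linarith)
      exact (this.comp hcast).eventually_ge_atTop C
    filter_upwards [hCk, hcast.eventually_ge_atTop 1] with k h1 h2 j hj
    have h3 : |((b (j + 1) - b j : ℤ) : ℝ)| ≤ (k : ℝ) ^ (1 - 3 * η) := by
      rcases Nat.lt_or_ge j J with h4 | h4
      · refine le_trans ?_ h1
        exact Finset.single_le_sum (f := fun j => |((b (j + 1) - b j : ℤ) : ℝ)|)
          (fun i _ => abs_nonneg _) (Finset.mem_range.2 h4)
      · refine (hJ j h4).trans ?_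
        exact Real.rpow_le_rpow (by positivity) (by exact_mod_cast hj.le) (by linarith)
    have h5 : |pert b A (j + 1) ω - pert b A j ω| ≤ |b (j + 1) - b j| + 2 := by
      unfold pert
      have := abs_le.1 (le_refl |b (j + 1) - b j|)
      split_ifs <;> refine abs_le.2 ⟨by omega, by omega⟩
    have h6 : ((|b (j + 1) - b j| + 2 : ℤ) : ℝ) ≤ ((2 * (M k : ℤ) : ℤ) : ℝ) := by
      push_cast
      have h7 : (k : ℝ) ^ (1 - 3 * η) ≤ ⌈(k : ℝ) ^ (1 - 3 * η)⌉₊ := Nat.le_ceil _
      have h8 : (0 : ℝ) ≤ (k : ℝ) ^ (1 - 3 * η) := by positivity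
      simp only [hM]
      push_cast at h3 ⊢
      linarith
    have h9 : |b (j + 1) - b j| + 2 ≤ 2 * (M k : ℤ) := by exact_mod_cast h6
    exact h5.trans h9
  have hX0 : ∀ ω, Even (pert b A 0 ω) := by
    intro ω
    have : pert b A 0 ω = b 0 := by simp [pert]
    rw [this]; exact hb0
  have hXodd : ∀ ω n, 1 ≤ n → Odd (pert b A n ω) := by
    intro ω n hn
    unfold pert
    split_ifs
    · exact (hb n hn).add_even even_two
    · simpa using hb n hn
  have hE := engine μ (X := pert b A) (pert_measurable b hA) hX0 hXodd (pth μ A)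
    (pert_spread b hA hind) l M hprod hMk (Filter.Eventually.of_forall hg)
  have hrows : ∀ᶠ k : ℕ in atTop, ((1 + l k * (M k - 1) : ℕ) : ℝ) ≤ (k : ℝ) ^ (1 - η / 2) := by
    have e1 : ∀ᶠ x : ℝ in atTop, (5 : ℝ) ≤ x ^ (η / 2) :=
      (tendsto_rpow_atTop (show 0 < η / 2 by linarith)).eventually_ge_atTop 5
    filter_upwards [hcast.eventually e1, hcast.eventually_ge_atTop 1] with k h1 h2
    have h3 : (1 : ℝ) ≤ (k : ℝ) ^ (2 * η) := Real.one_le_rpow h2 (by linarith)
    have h4 : (1 : ℝ) ≤ (k : ℝ) ^ (1 - 3 * η) := Real.one_le_rpow h2 (by linarith)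
    have h5 : (l k : ℝ) ≤ (k : ℝ) ^ (2 * η) + 1 := (Nat.ceil_lt_add_one (by positivity)).le
    have h6 : ((M k - 1 : ℕ) : ℝ) ≤ (k : ℝ) ^ (1 - 3 * η) + 1 := by
      have := (Nat.ceil_lt_add_one (show 0 ≤ (k : ℝ) ^ (1 - 3 * η) by positivity)).le
      simpa [hM] using this
    have h7 : (k : ℝ) ^ (2 * η) * (k : ℝ) ^ (1 - 3 * η) * (k : ℝ) ^ (η / 2) =
        (k : ℝ) ^ (1 - η / 2) := by
      rw [← Real.rpow_add (by linarith), ← Real.rpow_add (by linarith)]
      ring_nf
    push_cast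
    calc (1 : ℝ) + (l k : ℝ) * ((M k - 1 : ℕ) : ℝ)
        ≤ (k : ℝ) ^ (2 * η) * (k : ℝ) ^ (1 - 3 * η) +
          (2 * (k : ℝ) ^ (2 * η)) * (2 * (k : ℝ) ^ (1 - 3 * η)) := by
          gcongr
          · nlinarith
          · linarith
          · linarith
      _ = (k : ℝ) ^ (2 * η) * (k : ℝ) ^ (1 - 3 * η) * 5 := by ring
      _ ≤ (k : ℝ) ^ (2 * η) * (k : ℝ) ^ (1 - 3 * η) * (k : ℝ) ^ (η / 2) := by gcongr
      _ = _ := h7
  filter_upwards [hE] with ω hω
  filter_upwards [hω, hlM, hrows] with k h1 h2 h3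
  refine ⟨h1.2 h2, fun t j ht hj hjk => h1.1 t j ?_ hj hjk⟩
  exact_mod_cast h3.trans ht

end Pool.Agent.Gil
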