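import Mathlib
import Pool.Agent.Lib.MP_aba96a_nt.Const
import Pool.Agent.Lib.MP_aba96a_nt.Perturb

/-!
# Cramér's random primes: enumeration, measurability, conditional laws
-/

set_option autoImplicit false

open MeasureTheory Filter ProbabilityTheory MeasurableSpace
open scoped ENNReal

namespace Pool.Agent.Gil

/-! ### Enumerations of sets of naturals -/

section nth
open Classical

lemma count_agree {P T : ℕ → Prop} {v : ℕ} (h : ∀ u < v, (P u ↔ T u)) {w : ℕ} (hw : w ≤ v) :
    Nat.count P w = Nat.count T w := by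
  rw [Nat.count_eq_card_filter_range, Nat.count_eq_card_filter_range]
  congr 1
  apply Finset.filter_congr
  intro u hu
  exact h u (by have := Finset.mem_range.1 hu; omega)

lemma nth_agree {P T : ℕ → Prop} (hT : (setOf T).Infinite) {v j : ℕ} (hj : Nat.nth T j = v)
    (h : ∀ u < v, (P u ↔ T u)) : (∀ i < j, Nat.nth P i = Nat.nth T i) ∧ Nat.count P v = j := by
  constructor
  · intro i hi
    have h1 : Nat.nth T i < v := by rw [← hj]; exact Nat.nth_strictMono hT hi
    have h2 : T (Nat.nth T i) := Nat.nth_mem_of_infinite hT i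
    have h3 : P (Nat.nth T i) := (h _ h1).2 h2
    have h4 : Nat.count P (Nat.nth T i) = i := by
      rw [count_agree h h1.le]
      exact Nat.count_nth_of_infinite hT i
    have h5 := Nat.nth_count h3
    rwa [h4] at h5
  · rw [count_agree h le_rfl, ← hj]
    exact Nat.count_nth_of_infinite hT j

lemma count_no {P : ℕ → Prop} {v w : ℕ} (hvw : v ≤ w) (h : ∀ u, v ≤ u → u < w → ¬ P u) :
    Nat.count P w = Nat.count P v := by
  induction w, hvw using Nat.le_induction with
  | base => rfl
  | succ w hw ih =>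
    rw [Nat.count_succ, if_neg (h w hw (by omega)), add_zero]
    exact ih (fun u h1 h2 => h u h1 (by omega))

lemma mem_agree_aux {P T : ℕ → Prop} (hP : (setOf P).Infinite) (hT : (setOf T).Infinite)
    {v j : ℕ} (hPj : Nat.nth P j = v) (h : ∀ i < j, Nat.nth P i = Nat.nth T i) :
    ∀ u < v, P u → T u := by
  intro u hu hPu
  have h1 : Nat.nth P (Nat.count P u) = u := Nat.nth_count hPu
  have h2 : Nat.count P u < j := by
    rw [← (Nat.nth_strictMono hP).lt_iff_lt, h1, hPj]; exact hu
  rw [← h1, h _ h2]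
  exact Nat.nth_mem_of_infinite hT _

lemma mem_agree {P T : ℕ → Prop} (hP : (setOf P).Infinite) (hT : (setOf T).Infinite)
    {v j : ℕ} (hPj : Nat.nth P j = v) (hTj : Nat.nth T j = v)
    (h : ∀ i < j, Nat.nth P i = Nat.nth T i) : ∀ u < v, (P u ↔ T u) := fun u hu =>
  ⟨mem_agree_aux hP hT hPj h u hu, mem_agree_aux hT hP hTj (fun i hi => (h i hi).symm) u hu⟩

lemma le_nth_inf {P : ℕ → Prop} (hP : (setOf P).Infinite) (n : ℕ) : n ≤ Nat.nth P n :=
  (Nat.nth_strictMono hP).id_le n

end nth

variable {Ω : Type*} [MeasurableSpace Ω]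

/-- the random set of primes -/
def randP {Ω : Type*} (A : ℕ → Set Ω) (ω : Ω) : Set ℕ :=
  {n | n = 2 ∨ (3 ≤ n ∧ Odd n ∧ ω ∈ A n)}

/-- the event that `n` is a random prime -/
def Mem {Ω : Type*} (A : ℕ → Set Ω) (n : ℕ) : Set Ω := {ω | n ∈ randP A ω}

/-- the event that there are infinitely many random primes -/
def Inf {Ω : Type*} (A : ℕ → Set Ω) : Set Ω := {ω | (randP A ω).Infinite}

lemma Mem_gen (A : ℕ → Set Ω) (n : ℕ) : MeasurableSet[generateFrom {A n}] (Mem A n) := by
  have h : Mem A n = {_ω : Ω | n = 2} ∪ ({_ω : Ω | 3 ≤ n ∧ Odd n} ∩ A n) := by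
    ext ω; simp [Mem, randP, and_assoc]
  rw [h]
  exact (MeasurableSet.const _).union ((MeasurableSet.const _).inter (meas_self _))

lemma Mem_meas {A : ℕ → Set Ω} (hA : ∀ n, MeasurableSet (A n)) (n : ℕ) :
    MeasurableSet (Mem A n) := gen_le hA n (Mem_gen A n)

lemma Inf_meas {A : ℕ → Set Ω} (hA : ∀ n, MeasurableSet (A n)) : MeasurableSet (Inf A) := by
  have h : Inf A = ⋂ a : ℕ, ⋃ b : ℕ, ({_ω : Ω | a ≤ b} ∩ Mem A b) := by
    ext ω
    simp only [Inf, Set.mem_setOf_eq, Set.mem_iInter, Set.mem_iUnion, Set.mem_inter_iff, Mem]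
    have := Nat.frequently_atTop_iff_infinite (p := fun n => n ∈ randP A ω)
    rw [Filter.frequently_atTop] at this
    exact this.symm
  rw [h]
  exact MeasurableSet.iInter fun a => MeasurableSet.iUnion fun b =>
    (MeasurableSet.const _).inter (Mem_meas hA b)

open Classical in
/-- the enumeration of the random primes (with a deterministic value if there are finitely many) -/
noncomputable def CX {Ω : Type*} (A : ℕ → Set Ω) (n : ℕ) (ω : Ω) : ℤ :=
  if ω ∈ Inf A then (Nat.nth (fun m => m ∈ randP A ω) n : ℤ) else if n = 0 then 2 else 2 * n + 1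

lemma CX_of_mem {A : ℕ → Set Ω} {ω : Ω} (h : ω ∈ Inf A) (n : ℕ) :
    CX A n ω = (Nat.nth (fun m => m ∈ randP A ω) n : ℤ) := by
  unfold CX; rw [if_pos h]

lemma two_mem (A : ℕ → Set Ω) (ω : Ω) : 2 ∈ randP A ω := Or.inl rfl

lemma nth_zero (A : ℕ → Set Ω) (ω : Ω) : Nat.nth (fun m => m ∈ randP A ω) 0 = 2 := by
  classical
  have h1 : Nat.count (fun m => m ∈ randP A ω) 2 = 0 := by
    rw [Nat.count_eq_card_filter_range, Finset.card_eq_zero, Finset.filter_eq_empty_iff]
    intro u hu hmem
    rw [Finset.mem_range] at hu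
    rcases hmem with h | ⟨h, -⟩ <;> omega
  have h2 := Nat.nth_count (p := fun m => m ∈ randP A ω) (two_mem A ω)
  rwa [h1] at h2

lemma CX_zero (A : ℕ → Set Ω) (ω : Ω) : CX A 0 ω = 2 := by
  unfold CX
  split_ifs with h h'
  · rw [nth_zero]; rfl
  · rfl
  · exact absurd rfl h'

lemma CX_odd (A : ℕ → Set Ω) (ω : Ω) (n : ℕ) (hn : 1 ≤ n) : Odd (CX A n ω) := by
  unfold CX
  split_ifs with h h'
  · have h1 : Nat.nth (fun m => m ∈ randP A ω) 0 < Nat.nth (fun m => m ∈ randP A ω) n :=
      Nat.nth_strictMono h (by omega)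
    rw [nth_zero] at h1
    have h2 : Nat.nth (fun m => m ∈ randP A ω) n ∈ randP A ω := Nat.nth_mem_of_infinite h n
    rcases h2 with h3 | ⟨-, h3, -⟩
    · omega
    · exact_mod_cast h3
  · omega
  · exact ⟨n, by ring⟩

open Classical in
lemma count_meas {A : ℕ → Set Ω} (hA : ∀ n, MeasurableSet (A n)) (v : ℕ) :
    Measurable fun ω => Nat.count (fun m => m ∈ randP A ω) v := by
  have : (fun ω => Nat.count (fun m => m ∈ randP A ω) v) =
      fun ω => ∑ u ∈ Finset.range v, if ω ∈ Mem A u then 1 else 0 := by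
    funext ω
    rw [Nat.count_eq_card_filter_range, Finset.card_filter]
    rfl
  rw [this]
  exact Finset.measurable_sum _ fun u _ =>
    Measurable.ite (Mem_meas hA u) measurable_const measurable_const

lemma CX_meas {A : ℕ → Set Ω} (hA : ∀ n, MeasurableSet (A n)) (n : ℕ) :
    Measurable (CX A n) := by
  classical
  apply measurable_to_countable'
  intro z
  have h : CX A n ⁻¹' {z} =
      (Inf A ∩ ⋃ v : ℕ, ({_ω : Ω | (v : ℤ) = z} ∩ (Mem A v ∩
        {ω | Nat.count (fun m => m ∈ randP A ω) v = n}))) ∪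
      ((Inf A)ᶜ ∩ {_ω : Ω | (if n = 0 then (2 : ℤ) else 2 * n + 1) = z}) := by
    ext ω
    by_cases hω : ω ∈ Inf A
    · have hinf : (setOf fun m => m ∈ randP A ω).Infinite := hω
      simp only [Set.mem_preimage, Set.mem_singleton_iff, Set.mem_union, Set.mem_inter_iff, hω,
        true_and, Set.mem_iUnion, Set.mem_setOf_eq, Set.mem_compl_iff, not_true_eq_false,
        false_and, or_false, CX_of_mem hω]
      constructor
      · intro h1
        exact ⟨Nat.nth (fun m => m ∈ randP A ω) n, h1, Nat.nth_mem_of_infinite hinf n,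
          Nat.count_nth_of_infinite hinf n⟩
      · rintro ⟨v, h1, h2, h3⟩
        have h4 := Nat.nth_count (p := fun m => m ∈ randP A ω) h2
        rw [h3] at h4
        rw [h4, h1]
    · simp only [Set.mem_preimage, Set.mem_singleton_iff, Set.mem_union, Set.mem_inter_iff, hω,
        false_and, false_or, Set.mem_compl_iff, not_false_eq_true, true_and, Set.mem_setOf_eq]
      unfold CX
      rw [if_neg hω]
  rw [h]
  refine MeasurableSet.union ?_ ?_
  · exact (Inf_meas hA).inter (MeasurableSet.iUnion fun v => (MeasurableSet.const _).inter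
      ((Mem_meas hA v).inter (count_meas hA v (measurableSet_singleton n))))
  · exact (Inf_meas hA).compl.inter (MeasurableSet.const _)

/-- the event that the first random primes are given -/
def Ev {Ω : Type*} (A : ℕ → Set Ω) (a : ℕ → ℤ) (j v : ℕ) : Set Ω :=
  {ω | ω ∈ Inf A ∧ (∀ i < j, CX A i ω = a i) ∧ CX A j ω = (v : ℤ)}

lemma Ev_meas {A : ℕ → Set Ω} (hA : ∀ n, MeasurableSet (A n)) (a : ℕ → ℤ) (j v : ℕ) :
    MeasurableSet (Ev A a j v) := by
  have h : Ev A a j v = Inf A ∩ ((⋂ i ∈ Finset.range j, CX A i ⁻¹' {a i}) ∩ CX A j ⁻¹' {(v : ℤ)}) := by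
    ext ω
    simp only [Ev, Set.mem_setOf_eq, Set.mem_inter_iff, Set.mem_iInter, Finset.mem_range,
      Set.mem_preimage, Set.mem_singleton_iff]
  rw [h]
  refine (Inf_meas hA).inter (MeasurableSet.inter ?_ (CX_meas hA j (measurableSet_singleton _)))
  exact Finset.measurableSet_biInter _ fun i _ => CX_meas hA i (measurableSet_singleton _)

/-- comparison event: `u` is a random prime iff it is one for the reference point `ω₀` -/
def Cmp {Ω : Type*} (A : ℕ → Set Ω) (ω₀ : Ω) (u : ℕ) : Set Ω :=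
  {ω | u ∈ randP A ω ↔ u ∈ randP A ω₀}

lemma Cmp_gen (A : ℕ → Set Ω) (ω₀ : Ω) (u : ℕ) :
    MeasurableSet[generateFrom {A u}] (Cmp A ω₀ u) := by
  by_cases h : u ∈ randP A ω₀
  · have : Cmp A ω₀ u = Mem A u := by ext ω; simp [Cmp, Mem, h]
    rw [this]; exact Mem_gen A u
  · have : Cmp A ω₀ u = (Mem A u)ᶜ := by ext ω; simp [Cmp, Mem, h]
    rw [this]; exact (Mem_gen A u).compl

/-- the switching inequality -/
lemma switch {μ : Measure Ω} {A : ℕ → Set Ω} (hind : iIndepSet A μ)
    (hInf : μ (Inf A)ᶜ = 0) {a : ℕ → ℤ} {j v w : ℕ} (hvw : v ≤ w) {κ : ℝ≥0∞}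
    (hne : (Ev A a j v).Nonempty)
    (hκ : κ * μ (Mem A v) ≤ (∏ u ∈ Finset.Ico v w, μ (Mem A u)ᶜ) * μ (Mem A w)) :
    κ * μ (Ev A a j v) ≤ μ (Ev A a j w) := by
  classical
  obtain ⟨ω₀, hω₀, ha₀, hv₀⟩ := hne
  have hT : (setOf fun m => m ∈ randP A ω₀).Infinite := hω₀
  have hTj : Nat.nth (fun m => m ∈ randP A ω₀) j = v := by
    rw [CX_of_mem hω₀] at hv₀; exact_mod_cast hv₀
  -- upper bound
  have hsub1 : Ev A a j v ⊆ ⋂ u ∈ Finset.range (v + 1),
      (fun u => if u < v then Cmp A ω₀ u else Mem A u) u := by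
    rintro ω ⟨hω, ha, hv⟩
    have hP : (setOf fun m => m ∈ randP A ω).Infinite := hω
    have hPj : Nat.nth (fun m => m ∈ randP A ω) j = v := by
      rw [CX_of_mem hω] at hv; exact_mod_cast hv
    have hag := mem_agree hP hT hPj hTj (fun i hi => by
      have h1 := ha i hi
      rw [← ha₀ i hi, CX_of_mem hω, CX_of_mem hω₀] at h1
      exact_mod_cast h1)
    simp only [Set.mem_iInter, Finset.mem_range]
    intro u hu
    by_cases h : u < v
    · rw [if_pos h]; exact hag u h
    · obtain rfl : u = v := by omega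
      rw [if_neg h]
      have := Nat.nth_mem_of_infinite hP j
      rw [hPj] at this
      exact this
  have h1 := (iIndepSet_iff A μ).1 hind (Finset.range (v + 1))
    (f := fun u => if u < v then Cmp A ω₀ u else Mem A u) (fun u _ => by
      by_cases h : u < v
      · simp only [if_pos h]; exact Cmp_gen A ω₀ u
      · simp only [if_neg h]; exact Mem_gen A u)
  have h1' : ∏ u ∈ Finset.range (v + 1), μ ((fun u => if u < v then Cmp A ω₀ u else Mem A u) u) =
      (∏ u ∈ Finset.range v, μ (Cmp A ω₀ u)) * μ (Mem A v) := by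
    rw [Finset.prod_range_succ]
    congr 1
    · refine Finset.prod_congr rfl fun u hu => ?_
      simp only [if_pos (Finset.mem_range.1 hu)]
    · simp
  -- lower bound
  set g : ℕ → Set Ω := fun u => if u < v then Cmp A ω₀ u else if u < w then (Mem A u)ᶜ else Mem A u
    with hg
  have hsub2 : (⋂ u ∈ Finset.range (w + 1), g u) ∩ Inf A ⊆ Ev A a j w := by
    rintro ω ⟨h2, hω⟩
    simp only [Set.mem_iInter, Finset.mem_range] at h2
    have hP : (setOf fun m => m ∈ randP A ω).Infinite := hω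
    have hag : ∀ u < v, (u ∈ randP A ω ↔ u ∈ randP A ω₀) := by
      intro u hu
      have h3 := h2 u (by omega)
      simp only [hg, if_pos hu] at h3
      exact h3
    obtain ⟨h4, h5⟩ := nth_agree (P := fun m => m ∈ randP A ω) hT hTj hag
    have h6 : Nat.count (fun m => m ∈ randP A ω) w = j := by
      rw [count_no hvw (fun u hu1 hu2 hmem => ?_), h5]
      have h3 := h2 u (by omega)
      simp only [hg, if_neg (show ¬ u < v by omega), if_pos hu2] at h3
      exact h3 hmem
    have h7 : w ∈ randP A ω := by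
      have h3 := h2 w (by omega)
      simp only [hg, if_neg (show ¬ w < v by omega), if_neg (lt_irrefl w)] at h3
      exact h3
    refine ⟨hω, fun i hi => ?_, ?_⟩
    · rw [← ha₀ i hi, CX_of_mem hω, CX_of_mem hω₀, h4 i hi]
    · rw [CX_of_mem hω]
      have h8 := Nat.nth_count (p := fun m => m ∈ randP A ω) h7
      rw [h6] at h8
      exact_mod_cast h8
  have h2 := (iIndepSet_iff A μ).1 hind (Finset.range (w + 1)) (f := g) (fun u _ => by
      simp only [hg]
      split_ifs
      · exact Cmp_gen A ω₀ u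
      · exact (Mem_gen A u).compl
      · exact Mem_gen A u)
  have h2' : ∏ u ∈ Finset.range (w + 1), μ (g u) =
      (∏ u ∈ Finset.range v, μ (Cmp A ω₀ u)) *
        ((∏ u ∈ Finset.Ico v w, μ (Mem A u)ᶜ) * μ (Mem A w)) := by
    rw [Finset.prod_range_succ, ← Finset.prod_range_mul_prod_Ico _ hvw, mul_assoc]
    congr 1
    · refine Finset.prod_congr rfl fun u hu => ?_
      simp only [hg, if_pos (Finset.mem_range.1 hu)]
    · congr 1
      · refine Finset.prod_congr rfl fun u hu => ?_
        have := Finset.mem_Ico.1 hu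
        simp only [hg, if_neg (show ¬ u < v by omega), if_pos this.2]
      · simp only [hg, if_neg (show ¬ w < v by omega), if_neg (lt_irrefl w)]
  calc κ * μ (Ev A a j v) ≤ κ * ((∏ u ∈ Finset.range v, μ (Cmp A ω₀ u)) * μ (Mem A v)) := by
        gcongr
        rw [← h1', ← h1]
        exact measure_mono hsub1
    _ = (∏ u ∈ Finset.range v, μ (Cmp A ω₀ u)) * (κ * μ (Mem A v)) := by ring
    _ ≤ (∏ u ∈ Finset.range v, μ (Cmp A ω₀ u)) *
        ((∏ u ∈ Finset.Ico v w, μ (Mem A u)ᶜ) * μ (Mem A w)) := by gcongr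
    _ = μ (⋂ u ∈ Finset.range (w + 1), g u) := by rw [h2, h2']
    _ = μ ((⋂ u ∈ Finset.range (w + 1), g u) ∩ Inf A) :=
        (measure_inter_conull' (measure_mono_null (Set.diff_subset_compl _ _) hInf)).symm
    _ ≤ μ (Ev A a j w) := measure_mono hsub2

/-- the conditional laws of the random primes are not concentrated -/
theorem cramer_spread {μ : Measure Ω} [IsProbabilityMeasure μ] {A : ℕ → Set Ω}
    (hA : ∀ n, MeasurableSet (A n)) (hind : iIndepSet A μ)
    (hInf : μ (Inf A)ᶜ = 0) {κ : ℝ} (hκ : 0 < κ) (L n₁ : ℕ)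
    (H : ∀ v, n₁ ≤ v → ∃ τ, v ≤ τ ∧ τ ≤ v + L ∧
      ENNReal.ofReal κ * μ (Mem A v) ≤ (∏ u ∈ Finset.Ico v τ, μ (Mem A u)ᶜ) * μ (Mem A τ) ∧
      ENNReal.ofReal κ * μ (Mem A v) ≤
        (∏ u ∈ Finset.Ico v (τ + 2), μ (Mem A u)ᶜ) * μ (Mem A (τ + 2)))
    (j : ℕ) (hj : n₁ ≤ j) :
    Spread μ (CX A) j (ENNReal.ofReal (1 - κ / (κ + L + 3))) := by
  classical
  intro a S hS
  set m := μ {ω | ∀ i < j, CX A i ω = a i} with hm
  set σ : ℝ≥0∞ := ∑' v : ℕ, if (v : ℤ) ∈ S then μ (Ev A a j v) else 0 with hσ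
  set ρ : ℝ≥0∞ := ∑' v : ℕ, if (v : ℤ) ∈ S then 0 else μ (Ev A a j v) with hρ
  -- the event is covered by the events `Ev`
  have h1 : μ {ω | (∀ i < j, CX A i ω = a i) ∧ CX A j ω ∈ S} ≤ σ := by
    have hsub : {ω | (∀ i < j, CX A i ω = a i) ∧ CX A j ω ∈ S} ⊆
        (⋃ v : ℕ, if (v : ℤ) ∈ S then Ev A a j v else ∅) ∪ (Inf A)ᶜ := by
      rintro ω ⟨h2, h3⟩
      by_cases hω : ω ∈ Inf A
      · left
        rw [CX_of_mem hω] at h3
        refine Set.mem_iUnion.2 ⟨Nat.nth (fun m => m ∈ randP A ω) j, ?_⟩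
        rw [if_pos h3]
        exact ⟨hω, h2, CX_of_mem hω j⟩
      · right; exact hω
    calc μ {ω | (∀ i < j, CX A i ω = a i) ∧ CX A j ω ∈ S}
        ≤ μ ((⋃ v : ℕ, if (v : ℤ) ∈ S then Ev A a j v else ∅) ∪ (Inf A)ᶜ) := measure_mono hsub
      _ ≤ μ (⋃ v : ℕ, if (v : ℤ) ∈ S then Ev A a j v else ∅) + μ (Inf A)ᶜ := measure_union_le _ _
      _ = μ (⋃ v : ℕ, if (v : ℤ) ∈ S then Ev A a j v else ∅) := by rw [hInf, add_zero]
      _ ≤ ∑' v : ℕ, μ (if (v : ℤ) ∈ S then Ev A a j v else ∅) := measure_iUnion_le _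
      _ = σ := by
        rw [hσ]
        refine tsum_congr fun v => ?_
        split_ifs
        · rfl
        · exact measure_empty
  have h2 : σ + ρ ≤ m := by
    have hdisj : Pairwise (Function.onFun Disjoint fun v : ℕ => Ev A a j v) := by
      intro v w hvw
      rw [Function.onFun, Set.disjoint_left]
      rintro ω ⟨-, -, h3⟩ ⟨-, -, h4⟩
      rw [h3] at h4
      exact hvw (by exact_mod_cast h4)
    have h3 := measure_iUnion (μ := μ) hdisj (fun v => Ev_meas hA a j v)
    have h4 : σ + ρ = ∑' v : ℕ, μ (Ev A a j v) := by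
      rw [hσ, hρ, ← ENNReal.tsum_add]
      refine tsum_congr fun v => ?_
      split_ifs <;> simp
    rw [h4, ← h3]
    refine measure_mono ?_
    intro ω hω
    obtain ⟨v, hv⟩ := Set.mem_iUnion.1 hω
    exact hv.2.1
  have h3 : ENNReal.ofReal κ * σ ≤ ((L + 3 : ℕ) : ℝ≥0∞) * ρ := by
    rw [hσ, ← ENNReal.tsum_mul_left]
    calc ∑' v : ℕ, ENNReal.ofReal κ * (if (v : ℤ) ∈ S then μ (Ev A a j v) else 0)
        ≤ ∑' v : ℕ, ∑ d ∈ Finset.range (L + 3),
          (if ((v + d : ℕ) : ℤ) ∈ S then 0 else μ (Ev A a j (v + d))) := by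
          refine ENNReal.tsum_le_tsum fun v => ?_
          split_ifs with hv
          · rcases Set.eq_empty_or_nonempty (Ev A a j v) with he | hne
            · rw [he, measure_empty, mul_zero]; exact zero_le
            · have hjv : j ≤ v := by
                obtain ⟨ω₀, hω₀, -, hv₀⟩ := hne
                rw [CX_of_mem hω₀] at hv₀
                have h5 : Nat.nth (fun m => m ∈ randP A ω₀) j = v := by exact_mod_cast hv₀
                rw [← h5]
                exact le_nth_inf hω₀ j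
              obtain ⟨τ, hτ1, hτ2, hτ3, hτ4⟩ := H v (by omega)
              have key : ∀ w, v ≤ w → w ≤ v + L + 2 → (w : ℤ) ∉ S →
                  ENNReal.ofReal κ * μ (Mem A v) ≤
                    (∏ u ∈ Finset.Ico v w, μ (Mem A u)ᶜ) * μ (Mem A w) →
                  ENNReal.ofReal κ * μ (Ev A a j v) ≤ ∑ d ∈ Finset.range (L + 3),
                    (if ((v + d : ℕ) : ℤ) ∈ S then 0 else μ (Ev A a j (v + d))) := by
                intro w hw1 hw2 hwS hw3
                refine (switch hind hInf hw1 hne hw3).trans ?_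
                have h6 : μ (Ev A a j w) =
                    (fun d => if ((v + d : ℕ) : ℤ) ∈ S then 0 else μ (Ev A a j (v + d))) (w - v) := by
                  simp only [show v + (w - v) = w by omega, if_neg hwS]
                rw [h6]
                exact Finset.single_le_sum (f := fun d => if ((v + d : ℕ) : ℤ) ∈ S then 0 else
                  μ (Ev A a j (v + d))) (fun _ _ => zero_le) (Finset.mem_range.2 (by omega))
              by_cases hτS : (τ : ℤ) ∈ S
              · have := hS _ hτS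
                exact key (τ + 2) (by omega) (by omega) (by push_cast; exact this) hτ4
              · exact key τ hτ1 (by omega) hτS hτ3
          · rw [mul_zero]; exact zero_le
      _ = ∑ d ∈ Finset.range (L + 3), ∑' v : ℕ,
          (if ((v + d : ℕ) : ℤ) ∈ S then 0 else μ (Ev A a j (v + d))) :=
          Summable.tsum_finsetSum fun _ _ => ENNReal.summable
      _ ≤ ∑ d ∈ Finset.range (L + 3), ρ := by
          refine Finset.sum_le_sum fun d _ => ?_
          exact ENNReal.tsum_comp_le_tsum_of_injective (f := fun v : ℕ => v + d)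
            (fun x y hxy => by simpa using hxy)
            (fun v : ℕ => if (v : ℤ) ∈ S then 0 else μ (Ev A a j v))
      _ = ((L + 3 : ℕ) : ℝ≥0∞) * ρ := by
          rw [Finset.sum_const, Finset.card_range, nsmul_eq_mul]
  -- conclude with real numbers
  have hmtop : m ≠ ∞ := measure_ne_top μ _
  have hσtop : σ ≠ ∞ := ne_top_of_le_ne_top hmtop (le_self_add.trans h2)
  have hρtop : ρ ≠ ∞ := ne_top_of_le_ne_top hmtop (le_add_self.trans h2)
  have h2r : σ.toReal + ρ.toReal ≤ m.toReal := by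
    rw [← ENNReal.toReal_add hσtop hρtop]
    exact ENNReal.toReal_mono hmtop h2
  have h3r : κ * σ.toReal ≤ (L + 3) * ρ.toReal := by
    have := ENNReal.toReal_mono (ENNReal.mul_ne_top (ENNReal.natCast_ne_top _) hρtop) h3
    rw [ENNReal.toReal_mul, ENNReal.toReal_mul, ENNReal.toReal_ofReal hκ.le,
      ENNReal.toReal_natCast] at this
    push_cast at this
    exact this
  refine h1.trans ?_
  rw [← ENNReal.ofReal_toReal hσtop, ← ENNReal.ofReal_toReal hmtop, ← ENNReal.ofReal_mul (by
    have h4 : (0 : ℝ) < κ + L + 3 := by positivity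
    have h5 : κ / (κ + L + 3) ≤ 1 := by
      rw [div_le_one h4]
      have : (0 : ℝ) ≤ L := Nat.cast_nonneg L
      linarith
    linarith)]
  apply ENNReal.ofReal_le_ofReal
  have h4 : (0 : ℝ) < κ + L + 3 := by positivity
  rw [show 1 - κ / (κ + L + 3) = (L + 3) / (κ + L + 3) by field_simp; ring, div_mul_eq_mul_div,
    le_div_iff₀ h4]
  nlinarith

end Pool.Agent.Gil
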