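import Mathlib
import Pool.Agent.Lib.MP_aba96a_nt.CramerA

/-!
# Cramér's random primes: gaps, and the main theorem
-/

set_option autoImplicit false

open MeasureTheory Filter ProbabilityTheory MeasurableSpace
open scoped ENNReal

namespace Pool.Agent.Gil

/-- growth of a sequence with polylogarithmic gaps -/
lemma growth {x : ℕ → ℕ} (hx : StrictMono x) {g : ℕ → ℝ} {C₀ : ℝ} (hC : 0 < C₀)
    (hg : ∀ᶠ y : ℕ in atTop, g y ≤ C₀ * Real.log y ^ 2)
    (hstep : ∀ᶠ n : ℕ in atTop, (x (n + 1) : ℝ) ≤ x n + g (x n)) :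
    ∀ᶠ n : ℕ in atTop, (x (n + 1) : ℝ) - x n ≤ 9 * C₀ * Real.log n ^ 2 := by
  have hxt : Tendsto x atTop atTop := hx.tendsto_atTop
  have hcast : Tendsto (fun k : ℕ => (k : ℝ)) atTop atTop := tendsto_natCast_atTop_atTop
  have hlog : ∀ᶠ y : ℝ in atTop, C₀ * Real.log y ^ 2 ≤ Real.sqrt y := by
    have h1 := (isLittleO_log_rpow_atTop (show (0 : ℝ) < 1 / 4 by norm_num)).bound
      (show (0 : ℝ) < 1 / (C₀ + 1) by positivity)
    filter_upwards [h1, eventually_ge_atTop 1] with y h2 h3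
    rw [Real.norm_eq_abs, Real.norm_eq_abs, abs_of_nonneg (Real.log_nonneg h3),
      abs_of_nonneg (show 0 ≤ y ^ (1 / 4 : ℝ) by positivity)] at h2
    have h4 : Real.log y ^ 2 ≤ (1 / (C₀ + 1) * y ^ (1 / 4 : ℝ)) ^ 2 :=
      pow_le_pow_left₀ (Real.log_nonneg h3) h2 2
    have h5 : (y ^ (1 / 4 : ℝ)) ^ 2 = Real.sqrt y := by
      rw [← Real.rpow_natCast, ← Real.rpow_mul (by linarith), Real.sqrt_eq_rpow]
      norm_num
    calc C₀ * Real.log y ^ 2 ≤ C₀ * (1 / (C₀ + 1) * y ^ (1 / 4 : ℝ)) ^ 2 := by gcongr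
      _ = (C₀ * (1 / (C₀ + 1)) ^ 2) * Real.sqrt y := by rw [mul_pow, h5]; ring
      _ ≤ 1 * Real.sqrt y := by
          gcongr
          rw [one_div, inv_pow, ← div_eq_mul_inv, div_le_one (by positivity)]
          nlinarith
      _ = Real.sqrt y := one_mul _
  obtain ⟨N, hN⟩ := eventually_atTop.1
    (hstep.and ((hxt.eventually hg).and ((hcast.comp hxt).eventually hlog)))
  set K : ℕ := ⌈Real.sqrt (x N)⌉₊ with hK
  have hKN : (x N : ℝ) ≤ (K : ℝ) ^ 2 := by
    have h1 : Real.sqrt (x N) ≤ K := Nat.le_ceil _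
    calc (x N : ℝ) = Real.sqrt (x N) ^ 2 := (Real.sq_sqrt (Nat.cast_nonneg _)).symm
      _ ≤ (K : ℝ) ^ 2 := pow_le_pow_left₀ (Real.sqrt_nonneg _) h1 2
  have hsq : ∀ n, N ≤ n → (x n : ℝ) ≤ ((K : ℝ) + n) ^ 2 := by
    intro n hn
    induction n, hn using Nat.le_induction with
    | base =>
      refine hKN.trans (pow_le_pow_left₀ (by positivity) ?_ 2)
      have : (0 : ℝ) ≤ N := Nat.cast_nonneg N
      linarith
    | succ n hn ih =>
      obtain ⟨h1, h2, h3⟩ := hN n hn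
      have h4 : Real.sqrt (x n) ≤ (K : ℝ) + n := by
        rw [show (K : ℝ) + n = Real.sqrt (((K : ℝ) + n) ^ 2) from
          (Real.sqrt_sq (by positivity)).symm]
        exact Real.sqrt_le_sqrt ih
      have h5 : (x (n + 1) : ℝ) ≤ ((K : ℝ) + n) ^ 2 + ((K : ℝ) + n) := by
        have h3' : C₀ * Real.log (x n) ^ 2 ≤ Real.sqrt (x n) := h3
        linarith
      have h6 : (0 : ℝ) ≤ (K : ℝ) + n := by positivity
      push_cast
      nlinarith
  filter_upwards [eventually_ge_atTop (max (max N K) 4)] with n hn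
  have hn1 : N ≤ n := le_trans (le_trans (le_max_left _ _) (le_max_left _ _)) hn
  have hn2 : K ≤ n := le_trans (le_trans (le_max_right _ _) (le_max_left _ _)) hn
  have hn3 : 4 ≤ n := le_trans (le_max_right _ _) hn
  obtain ⟨h1, h2, -⟩ := hN n hn1
  have hn2' : (K : ℝ) ≤ n := by exact_mod_cast hn2
  have hn3' : (4 : ℝ) ≤ n := by exact_mod_cast hn3
  have h4 : (x n : ℝ) ≤ (n : ℝ) ^ 3 := by
    calc (x n : ℝ) ≤ ((K : ℝ) + n) ^ 2 := hsq n hn1
      _ ≤ ((n : ℝ) + n) ^ 2 := by gcongr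
      _ = 4 * (n : ℝ) ^ 2 := by ring
      _ ≤ n * (n : ℝ) ^ 2 := by gcongr
      _ = (n : ℝ) ^ 3 := by ring
  have hxn : (1 : ℝ) ≤ x n := by
    have : n ≤ x n := hx.id_le n
    exact_mod_cast (show 1 ≤ x n by omega)
  have h5 : Real.log (x n) ≤ 3 * Real.log n := by
    calc Real.log (x n) ≤ Real.log ((n : ℝ) ^ 3) := Real.log_le_log (by linarith) h4
      _ = 3 * Real.log n := by rw [Real.log_pow]; norm_num
  calc (x (n + 1) : ℝ) - x n ≤ g (x n) := by linarith
    _ ≤ C₀ * Real.log (x n) ^ 2 := h2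
    _ ≤ C₀ * (3 * Real.log n) ^ 2 := by
        gcongr
    _ = 9 * C₀ * Real.log n ^ 2 := by ring

variable {Ω : Type*} [MeasurableSpace Ω]

lemma gap_event {μ : Measure Ω} [IsProbabilityMeasure μ] {A : ℕ → Set Ω}
    (hA : ∀ n, MeasurableSet (A n)) (hind : iIndepSet A μ) (s : Finset ℕ) {r : ℝ}
    (h : ∀ u ∈ s, ENNReal.ofReal r ≤ μ (Mem A u)) :
    μ (⋂ u ∈ s, (Mem A u)ᶜ) ≤ ENNReal.ofReal (Real.exp (-(r * s.card))) := by
  rw [(iIndepSet_iff A μ).1 hind s (f := fun u => (Mem A u)ᶜ) (fun u _ => (Mem_gen A u).compl)]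
  calc ∏ u ∈ s, μ (Mem A u)ᶜ ≤ ∏ u ∈ s, ENNReal.ofReal (Real.exp (-r)) := by
        refine Finset.prod_le_prod' fun u hu => ?_
        rw [prob_compl_eq_one_sub (Mem_meas hA u)]
        calc 1 - μ (Mem A u) ≤ 1 - ENNReal.ofReal r := tsub_le_tsub_left (h u hu) _
          _ ≤ ENNReal.ofReal (1 - r) := by
              rw [tsub_le_iff_right, ← ENNReal.ofReal_one]
              calc ENNReal.ofReal 1 = ENNReal.ofReal ((1 - r) + r) := by ring_nf
                _ ≤ ENNReal.ofReal (1 - r) + ENNReal.ofReal r := ENNReal.ofReal_add_le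
          _ ≤ ENNReal.ofReal (Real.exp (-r)) := by
              apply ENNReal.ofReal_le_ofReal
              have := Real.add_one_le_exp (-r)
              linarith
    _ = ENNReal.ofReal (Real.exp (-(r * s.card))) := by
        rw [Finset.prod_const, ← ENNReal.ofReal_pow (Real.exp_pos _).le, ← Real.exp_nat_mul]
        congr 2; ring

/-- the law of the model: independent events, with probability `min 1 (lam / log n)` for `n` coprime
to `W`, and `0` for other `n`, for `n > n₀` -/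
def Model (μ : Measure Ω) (A : ℕ → Set Ω) (W : ℕ) (lam : ℝ) (n₀ : ℕ) : Prop :=
  ∀ n, n₀ < n → μ (A n) = if n.Coprime W then ENNReal.ofReal (min 1 (lam / Real.log n)) else 0

lemma Mem_eq_odd (A : ℕ → Set Ω) {n : ℕ} (h3 : 3 ≤ n) (ho : Odd n) : Mem A n = A n := by
  ext ω
  simp only [Mem, randP, Set.mem_setOf_eq]
  constructor
  · rintro (h | h)
    · omega
    · exact h.2.2
  · intro h; exact Or.inr ⟨h3, ho, h⟩

lemma Mem_eq_even (A : ℕ → Set Ω) {n : ℕ} (h3 : 3 ≤ n) (ho : ¬ Odd n) : Mem A n = ∅ := by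
  ext ω
  simp only [Mem, randP, Set.mem_setOf_eq, Set.mem_empty_iff_false, iff_false]
  rintro (h | h)
  · omega
  · exact ho h.2.1

lemma mem_prob {μ : Measure Ω} {A : ℕ → Set Ω} {W : ℕ} {lam : ℝ} {n₀ : ℕ}
    (hM : Model μ A W lam n₀) {n : ℕ} (h3 : 3 ≤ n) (hn : n₀ < n) :
    μ (Mem A n) = if Odd n ∧ n.Coprime W then ENNReal.ofReal (min 1 (lam / Real.log n)) else 0 := by
  by_cases ho : Odd n
  · rw [Mem_eq_odd A h3 ho, hM n hn]
    simp [ho]
  · rw [Mem_eq_even A h3 ho, measure_empty]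
    simp [ho]

lemma coprime_one_mod (W m : ℕ) : (2 * W * m + 1).Coprime W := by
  have : (2 * W * m + 1) = 1 + W * (2 * m) := by ring
  rw [this]
  simp

lemma coprime_neg_one_mod {W m : ℕ} (h : 0 < 2 * W * m) : (2 * W * m - 1).Coprime W := by
  have h1 : (2 * W * m - 1).Coprime (2 * W * m) := by
    have h2 : 2 * W * m - 1 + 1 = 2 * W * m := by omega
    have h3 := Nat.coprime_self_add_right (m := 2 * W * m - 1) (n := 1)
    rw [h2] at h3
    exact h3.2 (Nat.coprime_one_right _)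
  exact Nat.Coprime.coprime_dvd_right ⟨2 * m, by ring⟩ h1

theorem model_spread {μ : Measure Ω} [IsProbabilityMeasure μ] {A : ℕ → Set Ω}
    (hA : ∀ n, MeasurableSet (A n)) (hind : iIndepSet A μ) (hInf : μ (Inf A)ᶜ = 0)
    {W : ℕ} (hW : 0 < W) {lam : ℝ} (hlam : 0 < lam) {n₀ : ℕ} (hM : Model μ A W lam n₀) :
    ∃ n₁ : ℕ, ∀ j, n₁ ≤ j → Spread μ (CX A) j
      (ENNReal.ofReal (1 - (1 / 2) ^ (2 * W + 3) / ((1 / 2) ^ (2 * W + 3) + (2 * W : ℕ) + 3))) := by
  have hlog : ∀ᶠ n : ℕ in atTop, lam / Real.log n ≤ 1 / 2 := by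
    filter_upwards [log_nat_tendsto.eventually_ge_atTop (2 * lam + 1)] with n hn
    rw [div_le_iff₀ (by linarith)]
    linarith
  obtain ⟨n₂, hn₂⟩ := eventually_atTop.1 hlog
  refine ⟨max (max n₂ (n₀ + 1)) (2 * W + 5), fun j hj => ?_⟩
  refine cramer_spread hA hind hInf (κ := (1 / 2) ^ (2 * W + 3)) (by positivity) (2 * W)
    (max (max n₂ (n₀ + 1)) (2 * W + 5)) ?_ j hj
  intro v hv
  have hv1 : n₂ ≤ v := le_trans (le_trans (le_max_left _ _) (le_max_left _ _)) hv
  have hv2 : n₀ + 1 ≤ v := le_trans (le_trans (le_max_right _ _) (le_max_left _ _)) hv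
  have hv3 : 2 * W + 5 ≤ v := le_trans (le_max_right _ _) hv
  -- complements have probability at least 1/2
  have hhalf : ∀ u, v ≤ u → (1 / 2 : ℝ≥0∞) ≤ μ (Mem A u)ᶜ := by
    intro u hu
    rw [prob_compl_eq_one_sub (Mem_meas hA u), mem_prob hM (by omega) (by omega)]
    have h1 : (if Odd u ∧ u.Coprime W then ENNReal.ofReal (min 1 (lam / Real.log u)) else 0) ≤
        (1 / 2 : ℝ≥0∞) := by
      split_ifs
      · calc ENNReal.ofReal (min 1 (lam / Real.log u)) ≤ ENNReal.ofReal (1 / 2) :=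
              ENNReal.ofReal_le_ofReal ((min_le_right _ _).trans (hn₂ u (by omega)))
          _ = 1 / 2 := by
              rw [ENNReal.ofReal_div_of_pos (by norm_num)]; simp
      · exact zero_le
    calc (1 / 2 : ℝ≥0∞) = 1 - 1 / 2 := by
          rw [one_div]; exact ENNReal.one_sub_inv_two.symm
      _ ≤ _ := tsub_le_tsub_left h1 _
  have hprod : ∀ w, v ≤ w → w ≤ v + 2 * W + 2 →
      (1 / 2 : ℝ≥0∞) ^ (2 * W + 2) ≤ ∏ u ∈ Finset.Ico v w, μ (Mem A u)ᶜ := by
    intro w _ hw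
    calc (1 / 2 : ℝ≥0∞) ^ (2 * W + 2) ≤ (1 / 2 : ℝ≥0∞) ^ (Finset.Ico v w).card := by
          rw [Nat.card_Ico]
          exact pow_le_pow_right_of_le_one' (by rw [one_div]; exact ENNReal.inv_le_one.2 (by norm_num))
            (by omega)
      _ = ∏ u ∈ Finset.Ico v w, (1 / 2 : ℝ≥0∞) := by rw [Finset.prod_const]
      _ ≤ _ := Finset.prod_le_prod' fun u hu => hhalf u (Finset.mem_Ico.1 hu).1
  have hcmp : ∀ w, v ≤ w → w ≤ v + 2 * W + 2 → Odd w → w.Coprime W →
      (1 / 2 : ℝ≥0∞) * μ (Mem A v) ≤ μ (Mem A w) := by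
    intro w hw1 hw2 ho hco
    rw [mem_prob hM (n := w) (by omega) (by omega), if_pos ⟨ho, hco⟩,
      mem_prob hM (n := v) (by omega) (by omega)]
    split_ifs
    · have e1 : (1 / 2 : ℝ≥0∞) = ENNReal.ofReal (1 / 2) := by
        rw [ENNReal.ofReal_div_of_pos (by norm_num)]; simp
      rw [e1, ← ENNReal.ofReal_mul (by norm_num)]
      apply ENNReal.ofReal_le_ofReal
      have hvR : (5 : ℝ) ≤ v := by exact_mod_cast (show 5 ≤ v by omega)
      have hlv : 0 < Real.log v := Real.log_pos (by linarith)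
      have hwR : (w : ℝ) ≤ (v : ℝ) ^ 2 := by
        have h1 : w ≤ v ^ 2 := by nlinarith
        exact_mod_cast h1
      have hvw : (v : ℝ) ≤ w := by exact_mod_cast hw1
      have hlw : Real.log w ≤ 2 * Real.log v := by
        calc Real.log w ≤ Real.log ((v : ℝ) ^ 2) := Real.log_le_log (by linarith) hwR
          _ = 2 * Real.log v := by rw [Real.log_pow]; norm_num
      have hlw0 : 0 < Real.log w := Real.log_pos (by linarith)
      refine le_min ?_ ?_
      · have := min_le_left (1 : ℝ) (lam / Real.log v)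
        linarith
      · calc 1 / 2 * min 1 (lam / Real.log v) ≤ 1 / 2 * (lam / Real.log v) := by
              gcongr; exact min_le_right _ _
          _ = lam / (2 * Real.log v) := by field_simp
          _ ≤ lam / Real.log w := by gcongr
    · rw [mul_zero]; exact zero_le
  have hfin : ∀ w, v ≤ w → w ≤ v + 2 * W + 2 → Odd w → w.Coprime W →
      ENNReal.ofReal ((1 / 2) ^ (2 * W + 3)) * μ (Mem A v) ≤
        (∏ u ∈ Finset.Ico v w, μ (Mem A u)ᶜ) * μ (Mem A w) := by
    intro w hw1 hw2 ho hco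
    have e1 : ENNReal.ofReal ((1 / 2) ^ (2 * W + 3)) =
        (1 / 2 : ℝ≥0∞) ^ (2 * W + 2) * (1 / 2) := by
      rw [ENNReal.ofReal_pow (by norm_num), ENNReal.ofReal_div_of_pos (by norm_num), ← pow_succ]
      simp
    rw [e1, mul_assoc]
    exact mul_le_mul' (hprod w hw1 hw2) (hcmp w hw1 hw2 ho hco)
  set m := v / (2 * W) + 1 with hm
  have hm1 : v < 2 * W * m := by
    rw [hm]
    have := Nat.lt_mul_div_succ v (show 0 < 2 * W by omega)
    exact this
  have hm2 : 2 * W * m ≤ v + 2 * W := by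
    rw [hm, mul_add, mul_one]
    have := Nat.mul_div_le v (2 * W)
    omega
  refine ⟨2 * W * m - 1, by omega, by omega, ?_, ?_⟩
  · refine hfin _ (by omega) (by omega) ?_ (coprime_neg_one_mod (by omega))
    exact ⟨W * m - 1, by
      have : 1 ≤ W * m := by
        by_contra hcon
        have h0 : W * m = 0 := by omega
        rw [mul_assoc, h0] at hm1; omega
      rw [mul_assoc]; omega⟩
  · rw [show 2 * W * m - 1 + 2 = 2 * W * m + 1 by omega]
    refine hfin _ (by omega) (by omega) ⟨W * m, by ring⟩ (coprime_one_mod W m)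

/-- no long gaps -/
theorem model_gap {μ : Measure Ω} [IsProbabilityMeasure μ] {A : ℕ → Set Ω}
    (hA : ∀ n, MeasurableSet (A n)) (hind : iIndepSet A μ)
    {W : ℕ} (hW : 0 < W) {lam : ℝ} (hlam : 0 < lam) {n₀ : ℕ} (hM : Model μ A W lam n₀) :
    ∀ᵐ ω ∂μ, ∀ᶠ x : ℕ in atTop, ∃ u ∈ randP A ω, x < u ∧
      u ≤ x + (2 * W * ⌈4 * Real.log x ^ 2 / lam⌉₊ + 1) := by
  set g : ℕ → ℕ := fun x => 2 * W * ⌈4 * Real.log x ^ 2 / lam⌉₊ + 1 with hg
  set G : ℕ → Set Ω := fun x => {ω | ∀ u ∈ randP A ω, ¬ (x < u ∧ u ≤ x + g x)} with hG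
  have hcast : Tendsto (fun k : ℕ => (k : ℝ)) atTop atTop := tendsto_natCast_atTop_atTop
  have hsmall : ∀ᶠ x : ℕ in atTop, (g x : ℝ) ≤ x := by
    have h1 := (isLittleO_log_rpow_atTop (show (0 : ℝ) < 1 / 4 by norm_num)).bound
      (show (0 : ℝ) < 1 by norm_num)
    have h2 : ∀ᶠ x : ℝ in atTop, 2 * (W : ℝ) * (4 / lam + 1) + 1 ≤ x ^ (1 / 2 : ℝ) :=
      (tendsto_rpow_atTop (by norm_num)).eventually_ge_atTop _
    filter_upwards [hcast.eventually h1, hcast.eventually h2, hcast.eventually_ge_atTop 1]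
      with x h3 h4 h5
    rw [Real.norm_eq_abs, Real.norm_eq_abs, abs_of_nonneg (Real.log_nonneg h5),
      abs_of_nonneg (show 0 ≤ (x : ℝ) ^ (1 / 4 : ℝ) by positivity), one_mul] at h3
    have h6 : Real.log x ^ 2 ≤ (x : ℝ) ^ (1 / 2 : ℝ) := by
      calc Real.log x ^ 2 ≤ ((x : ℝ) ^ (1 / 4 : ℝ)) ^ 2 :=
            pow_le_pow_left₀ (Real.log_nonneg h5) h3 2
        _ = (x : ℝ) ^ (1 / 2 : ℝ) := by
            rw [← Real.rpow_natCast, ← Real.rpow_mul (by linarith)]; norm_num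
    have h7 : (⌈4 * Real.log x ^ 2 / lam⌉₊ : ℝ) ≤ 4 * Real.log x ^ 2 / lam + 1 :=
      (Nat.ceil_lt_add_one (by positivity)).le
    have h8 : (1 : ℝ) ≤ (x : ℝ) ^ (1 / 2 : ℝ) := Real.one_le_rpow h5 (by norm_num)
    have h9 : (x : ℝ) ^ (1 / 2 : ℝ) * (x : ℝ) ^ (1 / 2 : ℝ) = x := by
      rw [← Real.rpow_add (by linarith)]; norm_num
    simp only [hg]
    push_cast
    calc 2 * (W : ℝ) * (⌈4 * Real.log x ^ 2 / lam⌉₊ : ℝ) + 1
        ≤ 2 * (W : ℝ) * (4 * (x : ℝ) ^ (1 / 2 : ℝ) / lam + (x : ℝ) ^ (1 / 2 : ℝ)) +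
            (x : ℝ) ^ (1 / 2 : ℝ) := by
          gcongr
          refine h7.trans ?_
          gcongr
      _ = (2 * (W : ℝ) * (4 / lam + 1) + 1) * (x : ℝ) ^ (1 / 2 : ℝ) := by ring
      _ ≤ (x : ℝ) ^ (1 / 2 : ℝ) * (x : ℝ) ^ (1 / 2 : ℝ) := by gcongr
      _ = x := h9
  have hbd : ∀ᶠ x : ℕ in atTop, μ (G x) ≤ ENNReal.ofReal (1 / (x : ℝ) ^ 2) := by
    filter_upwards [hsmall, eventually_ge_atTop (max (n₀ + 3) (4 * W + 3)),
      log_nat_tendsto.eventually_ge_atTop (lam + 1)] with x h1 h2 h3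
    have hx1 : n₀ + 3 ≤ x := le_trans (le_max_left _ _) h2
    have hx2 : 4 * W + 3 ≤ x := le_trans (le_max_right _ _) h2
    set n := ⌈4 * Real.log x ^ 2 / lam⌉₊ with hn
    set s : Finset ℕ := (Finset.range n).image (fun i => 2 * W * (x / (2 * W) + 1 + i) + 1) with hs
    have hinj : Function.Injective (fun i : ℕ => 2 * W * (x / (2 * W) + 1 + i) + 1) := by
      intro a b hab
      simp only [Nat.add_right_cancel_iff] at hab
      have := Nat.eq_of_mul_eq_mul_left (by omega) hab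
      omega
    have hcard : s.card = n := by
      rw [hs, Finset.card_image_of_injective _ hinj, Finset.card_range]
    have hmem : ∀ u ∈ s, x < u ∧ u ≤ x + g x ∧ Odd u ∧ u.Coprime W := by
      intro u hu
      rw [hs, Finset.mem_image] at hu
      obtain ⟨i, hi, rfl⟩ := hu
      rw [Finset.mem_range] at hi
      have h4 : x < 2 * W * (x / (2 * W) + 1) := Nat.lt_mul_div_succ x (by omega)
      have h5 : 2 * W * (x / (2 * W)) ≤ x := Nat.mul_div_le x (2 * W)
      have h6 : 2 * W * (1 + i) ≤ 2 * W * n := Nat.mul_le_mul_left _ (by omega)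
      have h7 : 2 * W * (x / (2 * W) + 1 + i) = 2 * W * (x / (2 * W)) + 2 * W * (1 + i) := by ring
      have h8 : 2 * W * (x / (2 * W) + 1) ≤ 2 * W * (x / (2 * W) + 1 + i) :=
        Nat.mul_le_mul_left _ (by omega)
      refine ⟨by omega, ?_, ⟨W * (x / (2 * W) + 1 + i), by ring⟩, coprime_one_mod W _⟩
      show 2 * W * (x / (2 * W) + 1 + i) + 1 ≤ x + (2 * W * n + 1)
      omega
    have hxR : (3 : ℝ) ≤ x := by exact_mod_cast (show 3 ≤ x by omega)
    have hlx : 0 < Real.log x := by linarith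
    have hsub : G x ⊆ ⋂ u ∈ s, (Mem A u)ᶜ := by
      intro ω hω
      simp only [Set.mem_iInter]
      intro u hu hcon
      obtain ⟨h4, h5, -, -⟩ := hmem u hu
      exact hω u hcon ⟨h4, h5⟩
    have hge := gap_event hA hind s (r := lam / (2 * Real.log x)) (fun u hu => by
      obtain ⟨h4, h5, h6, h7⟩ := hmem u hu
      rw [mem_prob hM (by omega) (by omega), if_pos ⟨h6, h7⟩]
      apply ENNReal.ofReal_le_ofReal
      have hux : (u : ℝ) ≤ (x : ℝ) ^ 2 := by
        have h8 : (u : ℝ) ≤ x + g x := by exact_mod_cast h5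
        nlinarith
      have hux' : (x : ℝ) < u := by exact_mod_cast h4
      have hlu : Real.log u ≤ 2 * Real.log x := by
        calc Real.log u ≤ Real.log ((x : ℝ) ^ 2) := Real.log_le_log (by linarith) hux
          _ = 2 * Real.log x := by rw [Real.log_pow]; norm_num
      have hlu0 : 0 < Real.log u := Real.log_pos (by linarith)
      refine le_min ?_ ?_
      · rw [div_le_one (by linarith)]; linarith
      · gcongr)
    refine (measure_mono hsub).trans (hge.trans ?_)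
    apply ENNReal.ofReal_le_ofReal
    rw [hcard]
    have h9 : 4 * Real.log x ^ 2 / lam ≤ n := Nat.le_ceil _
    calc Real.exp (-(lam / (2 * Real.log x) * n)) ≤ Real.exp (-(2 * Real.log x)) := by
          apply Real.exp_le_exp.2
          have h10 : lam / (2 * Real.log x) * (4 * Real.log x ^ 2 / lam) ≤
              lam / (2 * Real.log x) * n := by gcongr
          have h11 : lam / (2 * Real.log x) * (4 * Real.log x ^ 2 / lam) = 2 * Real.log x := by
            field_simp; ring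
          linarith
      _ = 1 / (x : ℝ) ^ 2 := by
          rw [Real.exp_neg, one_div]
          congr 1
          rw [show 2 * Real.log x = ((2 : ℕ) : ℝ) * Real.log x by norm_num, ← Real.log_pow,
            Real.exp_log (by positivity)]
  obtain ⟨x₁, hx₁⟩ := eventually_atTop.1 hbd
  set s : ℕ → Set Ω := fun x => if x₁ ≤ x then G x else ∅ with hs
  have hsum : (∑' x, μ (s x)) ≠ ∞ := by
    have hb : ∀ x, μ (s x) ≤ ENNReal.ofReal (1 / (x : ℝ) ^ 2) := by
      intro x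
      by_cases h : x₁ ≤ x
      · simp only [hs, if_pos h]; exact hx₁ x h
      · simp only [hs, if_neg h, measure_empty]; exact zero_le
    refine ne_top_of_le_ne_top ?_ (ENNReal.tsum_le_tsum hb)
    have hsm : Summable fun k : ℕ => 1 / (k : ℝ) ^ 2 := by
      have := (Real.summable_nat_pow_inv (p := 2)).2 (by norm_num)
      simpa [div_eq_mul_inv] using this
    rw [← ENNReal.ofReal_tsum_of_nonneg (fun k => by positivity) hsm]
    exact ENNReal.ofReal_ne_top
  filter_upwards [ae_eventually_notMem hsum] with ω hω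
  filter_upwards [hω, eventually_ge_atTop x₁] with x h1 h2
  simp only [hs, if_pos h2, hG, Set.mem_setOf_eq] at h1
  push Not at h1
  exact h1

lemma inf_of_gap {A : ℕ → Set Ω} {ω : Ω} {g : ℕ → ℕ}
    (h : ∀ᶠ x : ℕ in atTop, ∃ u ∈ randP A ω, x < u ∧ u ≤ x + g x) : ω ∈ Inf A := by
  obtain ⟨x₁, hx₁⟩ := eventually_atTop.1 h
  have hf : ∃ᶠ n in atTop, n ∈ randP A ω := by
    rw [Filter.frequently_atTop]
    intro a
    obtain ⟨u, hu, h1, -⟩ := hx₁ (max a x₁) (le_max_right _ _)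
    exact ⟨u, by have := le_max_left a x₁; omega, hu⟩
  exact Nat.frequently_atTop_iff_infinite.1 hf

lemma nth_step {A : ℕ → Set Ω} {ω : Ω} {g : ℕ → ℕ}
    (h : ∀ᶠ x : ℕ in atTop, ∃ u ∈ randP A ω, x < u ∧ u ≤ x + g x) :
    ∀ᶠ n : ℕ in atTop, Nat.nth (fun m => m ∈ randP A ω) (n + 1) ≤
      Nat.nth (fun m => m ∈ randP A ω) n + g (Nat.nth (fun m => m ∈ randP A ω) n) := by
  have hinf : (setOf fun m => m ∈ randP A ω).Infinite := inf_of_gap h
  have ht := (Nat.nth_strictMono hinf).tendsto_atTop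
  filter_upwards [ht.eventually h] with n hn
  obtain ⟨u, hu, h1, h2⟩ := hn
  refine le_trans ?_ h2
  by_contra hcon
  push Not at hcon
  have := Nat.le_nth_of_lt_nth_succ hcon hu
  omega

end Pool.Agent.Gil
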