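import Mathlib
import Pool.Agent.Lib.MP_0bb3d8_nt.HohMain

/-!
# Prime gaps in terms of the index (from the Hoheisel type theorem)
-/

set_option autoImplicit false

open Filter

namespace Pool.Agent.Gil

lemma nth_prime_lt (n : ℕ) : n < Nat.nth Nat.Prime n := by
  induction n with
  | zero => rw [Nat.nth_prime_zero_eq_two]; omega
  | succ n ih =>
    have : Nat.nth Nat.Prime n < Nat.nth Nat.Prime (n + 1) :=
      Nat.nth_strictMono Nat.infinite_setOfPred_prime (Nat.lt_succ_self n)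
    omega

lemma primeCounting_nth (n : ℕ) : Nat.primeCounting (Nat.nth Nat.Prime n) = n + 1 := by
  have h1 : Nat.count Nat.Prime (Nat.nth Nat.Prime n) = n :=
    Nat.count_nth_of_infinite Nat.infinite_setOfPred_prime n
  have h2 : Nat.Prime (Nat.nth Nat.Prime n) := Nat.prime_nth_prime n
  unfold Nat.primeCounting Nat.primeCounting'
  rw [Nat.count_succ, h1, if_pos h2]

theorem prime_gap : ∃ δ : ℝ, 0 < δ ∧ δ < 1 ∧ ∀ᶠ n : ℕ in atTop,
    (Nat.nth Nat.Prime (n + 1) : ℝ) - Nat.nth Nat.Prime n ≤ (n : ℝ) ^ (1 - δ) := by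
  obtain ⟨δ₀, c, x₀, hδ, hδ1, hc, hx₀, H⟩ := Hoh.hoheisel
  refine ⟨δ₀ / 4, by linarith, by linarith, ?_⟩
  set ε := δ₀ / 2 with hε
  have hε0 : 0 < ε := by rw [hε]; linarith
  have hP : Tendsto (fun n : ℕ => (Nat.nth Nat.Prime n : ℝ)) atTop atTop := by
    refine tendsto_atTop_mono (fun n => ?_) tendsto_natCast_atTop_atTop
    exact_mod_cast (nth_prime_lt n).le
  -- real estimates
  have e1 : ∀ᶠ x : ℝ in atTop, Real.log x ≤ (Real.log 2 / 2) * x ^ ε := by
    have := (isLittleO_log_rpow_atTop hε0).bound (show (0 : ℝ) < Real.log 2 / 2 by positivity)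
    filter_upwards [this, eventually_ge_atTop 1] with x hx hx1
    rwa [Real.norm_eq_abs, Real.norm_eq_abs, abs_of_nonneg (Real.log_nonneg hx1),
      abs_of_nonneg (by positivity)] at hx
  have e2 : ∀ᶠ x : ℝ in atTop, Real.log (x + 1) ≤ (Real.log 2 / 2) * x := by
    have h1 : Tendsto (fun x : ℝ => x + 1) atTop atTop := tendsto_atTop_add_const_right _ _ tendsto_id
    have h2 := (Real.isLittleO_log_id_atTop).bound (show (0 : ℝ) < Real.log 2 / 4 by positivity)
    filter_upwards [h1.eventually h2, eventually_ge_atTop 1] with x hx hx1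
    rw [Real.norm_eq_abs, Real.norm_eq_abs, abs_of_nonneg (Real.log_nonneg (by linarith)), id,
      abs_of_nonneg (by linarith)] at hx
    have h3 : 0 < Real.log 2 := Real.log_pos (by norm_num)
    nlinarith
  have e3 : ∀ᶠ n : ℕ in atTop, (2 : ℝ) ≤ (n : ℝ) ^ (ε / 2) :=
    ((tendsto_rpow_atTop (show 0 < ε / 2 by linarith)).comp
      tendsto_natCast_atTop_atTop).eventually_ge_atTop 2
  filter_upwards [hP.eventually e1, hP.eventually e2, e3, hP.eventually_ge_atTop x₀,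
    eventually_ge_atTop 1] with n h1 h2 h3 h4 h5
  set N := Nat.nth Nat.Prime n with hN
  have hN1 : (1 : ℝ) < N := by linarith
  have hlogN : 0 < Real.log N := Real.log_pos hN1
  have hn1 : (1 : ℝ) ≤ n := by exact_mod_cast h5
  -- step 1: next prime
  have hgap : (Nat.nth Nat.Prime (n + 1) : ℝ) - N ≤ (N : ℝ) ^ (1 - δ₀) := by
    have h6 := H N h4
    have h7 : (0 : ℝ) < (((Finset.Ioc ⌊(N : ℝ)⌋₊ ⌊(N : ℝ) + (N : ℝ) ^ (1 - δ₀)⌋₊).filter
        Nat.Prime).card : ℝ) := lt_of_lt_of_le (by positivity) h6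
    have h8 : 0 < ((Finset.Ioc ⌊(N : ℝ)⌋₊ ⌊(N : ℝ) + (N : ℝ) ^ (1 - δ₀)⌋₊).filter
        Nat.Prime).card := by exact_mod_cast h7
    obtain ⟨q, hq⟩ := Finset.card_pos.1 h8
    rw [Finset.mem_filter, Finset.mem_Ioc, Nat.floor_natCast] at hq
    obtain ⟨⟨hq1, hq2⟩, hq3⟩ := hq
    have h9 : Nat.nth Nat.Prime (n + 1) ≤ q := by
      by_contra hcon
      push Not at hcon
      have := Nat.le_nth_of_lt_nth_succ hcon hq3
      omega
    have h10 : (q : ℝ) ≤ (N : ℝ) + (N : ℝ) ^ (1 - δ₀) := by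
      have := Nat.floor_le (show 0 ≤ (N : ℝ) + (N : ℝ) ^ (1 - δ₀) by positivity)
      exact le_trans (by exact_mod_cast hq2) this
    have h11 : (Nat.nth Nat.Prime (n + 1) : ℝ) ≤ q := by exact_mod_cast h9
    linarith
  -- step 2: size of the prime
  have hsize : (N : ℝ) ^ (1 - ε) ≤ (n : ℝ) + 1 := by
    have h6 := Chebyshev.pi_ge N
    have h7 : (Nat.primeCounting N : ℝ) = (n : ℝ) + 1 := by
      rw [hN, primeCounting_nth]; push_cast; rfl
    rw [h7] at h6
    refine le_trans ?_ h6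
    rw [le_div_iff₀ hlogN]
    have h8 : (N : ℝ) ^ (1 - ε) * Real.log N ≤ (Real.log 2 / 2) * N := by
      calc (N : ℝ) ^ (1 - ε) * Real.log N ≤ (N : ℝ) ^ (1 - ε) * ((Real.log 2 / 2) * (N : ℝ) ^ ε) := by
            gcongr
        _ = (Real.log 2 / 2) * ((N : ℝ) ^ (1 - ε) * (N : ℝ) ^ ε) := by ring
        _ = (Real.log 2 / 2) * N := by
            rw [← Real.rpow_add (by linarith)]
            ring_nf
            rw [Real.rpow_one]
    linarith
  calc (Nat.nth Nat.Prime (n + 1) : ℝ) - N ≤ (N : ℝ) ^ (1 - δ₀) := hgap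
    _ ≤ (N : ℝ) ^ ((1 - ε) * (1 - ε)) := by
        apply Real.rpow_le_rpow_of_exponent_le hN1.le
        rw [hε]; nlinarith [sq_nonneg δ₀]
    _ = ((N : ℝ) ^ (1 - ε)) ^ (1 - ε) := by rw [Real.rpow_mul (by linarith)]
    _ ≤ ((n : ℝ) + 1) ^ (1 - ε) := by
        apply Real.rpow_le_rpow (by positivity) hsize
        rw [hε]; linarith
    _ ≤ (2 * (n : ℝ)) ^ (1 - ε) := by
        apply Real.rpow_le_rpow (by positivity) (by linarith)
        rw [hε]; linarith
    _ = (2 : ℝ) ^ (1 - ε) * (n : ℝ) ^ (1 - ε) := by rw [Real.mul_rpow (by norm_num) (by linarith)]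
    _ ≤ 2 * (n : ℝ) ^ (1 - ε) := by
        gcongr
        calc (2 : ℝ) ^ (1 - ε) ≤ 2 ^ (1 : ℝ) :=
              Real.rpow_le_rpow_of_exponent_le (by norm_num) (by linarith)
          _ = 2 := Real.rpow_one _
    _ ≤ (n : ℝ) ^ (ε / 2) * (n : ℝ) ^ (1 - ε) := by gcongr
    _ = (n : ℝ) ^ (1 - δ₀ / 4) := by
        rw [← Real.rpow_add (by linarith)]
        congr 1
        rw [hε]; ring

end Pool.Agent.Gil
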