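import Mathlib
import Pool.Agent.Lib.MP_aba96a_nt.Perturb

/-!
# Fair coins on a sparse set of indices
-/

set_option autoImplicit false

open MeasureTheory Filter ProbabilityTheory
open scoped ENNReal

namespace Pool.Agent.Gil

/-- fair coin -/
noncomputable def coin : Measure Bool :=
  (1 / 2 : ℝ≥0∞) • Measure.dirac true + (1 / 2 : ℝ≥0∞) • Measure.dirac false

instance : IsProbabilityMeasure coin := ⟨by
  simp [coin, ENNReal.inv_two_add_inv_two]⟩

lemma coin_true : coin {true} = 1 / 2 := by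
  simp [coin]

open Classical in
noncomputable def tset (B : Set ℕ) (n : ℕ) : Set Bool := if n ∈ B then {true} else ∅

/-- the event that the index `n` is perturbed -/
def ev (B : Set ℕ) (n : ℕ) : Set (ℕ → Bool) := {ω | n ∈ B ∧ ω n = true}

noncomputable def coins : Measure (ℕ → Bool) := Measure.infinitePi fun _ => coin

instance : IsProbabilityMeasure coins := by unfold coins; infer_instance

lemma ev_meas (B : Set ℕ) (n : ℕ) : MeasurableSet (ev B n) := by
  have : ev B n = {_ω : ℕ → Bool | n ∈ B} ∩ (fun ω : ℕ → Bool => ω n) ⁻¹' {true} := by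
    ext ω; simp [ev]
  rw [this]
  exact (MeasurableSet.const _).inter ((measurable_pi_apply n) (measurableSet_singleton _))

lemma iInter_ev (B : Set ℕ) (s : Finset ℕ) : (⋂ i ∈ s, ev B i) = Set.pi s (tset B) := by
  ext ω
  simp only [Set.mem_iInter, Set.mem_pi, ev, tset, Finset.mem_coe, Set.mem_setOf_eq]
  refine forall₂_congr fun i _ => ?_
  by_cases h : i ∈ B <;> simp [h]

lemma coins_iInter (B : Set ℕ) (s : Finset ℕ) :
    coins (⋂ i ∈ s, ev B i) = ∏ i ∈ s, coin (tset B i) := by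
  rw [iInter_ev]
  exact Measure.infinitePi_pi _ (fun i _ => MeasurableSet.of_discrete)

lemma coins_ev (B : Set ℕ) (n : ℕ) : coins (ev B n) = coin (tset B n) := by
  have := coins_iInter B {n}
  simpa using this

lemma ev_indep (B : Set ℕ) : iIndepSet (ev B) coins := by
  rw [iIndepSet_iff_meas_biInter (ev_meas B)]
  intro s
  rw [coins_iInter]
  exact Finset.prod_congr rfl fun i _ => (coins_ev B i).symm

lemma rr_ev (B : Set ℕ) (n : ℕ) (h : n ∈ B) : rr coins (ev B) n = 1 / 2 := by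
  unfold rr
  have : coins.real (ev B n) = 1 / 2 := by
    rw [Measure.real, coins_ev, tset, if_pos h, coin_true]
    simp
  rw [this]
  norm_num

/-- a sparse set: the places where the integer part of `n^s` jumps -/
def Bset (s : ℝ) : Set ℕ := {n | ⌊(n : ℝ) ^ s⌋₊ < ⌊((n + 1 : ℕ) : ℝ) ^ s⌋₊}

open Classical in
lemma Bset_count {s : ℝ} (hs : 0 < s) (N : ℕ) :
    ((Finset.range N).filter (fun n => n ∈ Bset s)).card ≤ ⌊(N : ℝ) ^ s⌋₊ := by
  induction N with
  | zero => simp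
  | succ N ih =>
    rw [Finset.range_add_one, Finset.filter_insert]
    split_ifs with h
    · rw [Finset.card_insert_of_notMem (by simp)]
      have : ⌊(N : ℝ) ^ s⌋₊ < ⌊((N + 1 : ℕ) : ℝ) ^ s⌋₊ := h
      omega
    · refine ih.trans (Nat.floor_le_floor ?_)
      exact Real.rpow_le_rpow (by positivity) (by push_cast; linarith) hs.le

open Classical in
lemma Bset_window {s : ℝ} (hs : 0 < s) (hs1 : s ≤ 1) (m w : ℕ) :
    ⌊((m + w : ℕ) : ℝ) ^ s⌋₊ ≤ ⌊(m : ℝ) ^ s⌋₊ +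
      ((Finset.Ico m (m + w)).filter (fun n => n ∈ Bset s)).card := by
  induction w with
  | zero => simp
  | succ w ih =>
    have hstep : ⌊((m + w + 1 : ℕ) : ℝ) ^ s⌋₊ ≤ ⌊((m + w : ℕ) : ℝ) ^ s⌋₊ + 1 := by
      have h1 : ((m + w + 1 : ℕ) : ℝ) ^ s ≤ ((m + w : ℕ) : ℝ) ^ s + 1 := by
        have := Real.rpow_add_le_add_rpow (a := ((m + w : ℕ) : ℝ)) (b := 1) (by positivity)
          zero_le_one hs.le hs1
        rw [Real.one_rpow] at this
        push_cast at this ⊢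
        exact this
      calc ⌊((m + w + 1 : ℕ) : ℝ) ^ s⌋₊ ≤ ⌊((m + w : ℕ) : ℝ) ^ s + 1⌋₊ := Nat.floor_le_floor h1
        _ = ⌊((m + w : ℕ) : ℝ) ^ s⌋₊ + 1 := Nat.floor_add_one (by positivity)
    rw [show m + (w + 1) = m + w + 1 by ring, ← Finset.insert_Ico_right_eq_Ico_add_one (by omega),
      Finset.filter_insert]
    split_ifs with h
    · rw [Finset.card_insert_of_notMem (by simp)]
      omega
    · have h2 : ¬ ⌊((m + w : ℕ) : ℝ) ^ s⌋₊ < ⌊((m + w + 1 : ℕ) : ℝ) ^ s⌋₊ := h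
      omega

/-- the sparse set has two elements in every window of length `m^η` -/
lemma Bset_two {η : ℝ} (hη : 0 < η) (hη1 : η ≤ 1) : ∀ᶠ m : ℕ in atTop,
    (1 : ℝ) ≤ ∑ n ∈ Finset.Ico m (m + ⌊(m : ℝ) ^ η⌋₊),
      rr coins (ev (Bset (1 - η / 2))) n := by
  classical
  set s := 1 - η / 2 with hs
  have hs0 : 1 / 2 ≤ s := by rw [hs]; linarith
  have hcast : Tendsto (fun k : ℕ => (k : ℝ)) atTop atTop := tendsto_natCast_atTop_atTop
  have e1 : ∀ᶠ m : ℕ in atTop, (100 : ℝ) ≤ (m : ℝ) ^ (η / 2) :=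
    ((tendsto_rpow_atTop (show 0 < η / 2 by linarith)).comp hcast).eventually_ge_atTop 100
  filter_upwards [e1, eventually_ge_atTop 1] with m h1 h2
  have hm1 : (1 : ℝ) ≤ m := by exact_mod_cast h2
  set w := ⌊(m : ℝ) ^ η⌋₊ with hw
  have hy : (m : ℝ) ^ η = (m : ℝ) ^ (η / 2) * (m : ℝ) ^ (η / 2) := by
    rw [← Real.rpow_add (by linarith)]; ring_nf
  have hwlo : (m : ℝ) ^ η / 2 ≤ w := by
    have := Nat.lt_floor_add_one ((m : ℝ) ^ η)
    have h3 : (10000 : ℝ) ≤ (m : ℝ) ^ η := by rw [hy]; nlinarith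
    linarith
  have hwle : (w : ℝ) ≤ m := by
    refine (Nat.floor_le (by positivity)).trans ?_
    calc (m : ℝ) ^ η ≤ (m : ℝ) ^ (1 : ℝ) := Real.rpow_le_rpow_of_exponent_le hm1 hη1
      _ = m := Real.rpow_one _
  have hmw : (0 : ℝ) < (m : ℝ) + w := by positivity
  -- Bernoulli
  have hB : (m : ℝ) ^ s ≤ ((m : ℝ) + w) ^ s - s * w * ((m : ℝ) + w) ^ (s - 1) := by
    have h3 : (m : ℝ) = ((m : ℝ) + w) * (1 + (-(w : ℝ) / ((m : ℝ) + w))) := by
      field_simp; ring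
    have h4 := rpow_one_add_le_one_add_mul_self (s := -(w : ℝ) / ((m : ℝ) + w)) (p := s)
      (by rw [le_div_iff₀ hmw]; nlinarith) (by linarith) (by rw [hs]; linarith)
    have h5 : (0 : ℝ) ≤ 1 + (-(w : ℝ) / ((m : ℝ) + w)) := by
      have : (1 : ℝ) + (-(w : ℝ) / ((m : ℝ) + w)) = m / (m + w) := by field_simp; ring
      rw [this]; positivity
    calc (m : ℝ) ^ s = (((m : ℝ) + w) * (1 + (-(w : ℝ) / ((m : ℝ) + w)))) ^ s := by rw [← h3]
      _ = ((m : ℝ) + w) ^ s * (1 + (-(w : ℝ) / ((m : ℝ) + w))) ^ s := Real.mul_rpow hmw.le h5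
      _ ≤ ((m : ℝ) + w) ^ s * (1 + s * (-(w : ℝ) / ((m : ℝ) + w))) := by gcongr
      _ = ((m : ℝ) + w) ^ s - s * w * (((m : ℝ) + w) ^ s / ((m : ℝ) + w)) := by field_simp; ring
      _ = _ := by rw [Real.rpow_sub_one hmw.ne']
  have hgain : (4 : ℝ) ≤ s * w * ((m : ℝ) + w) ^ (s - 1) := by
    have h6 : (2 * (m : ℝ)) ^ (s - 1) ≤ ((m : ℝ) + w) ^ (s - 1) := by
      apply Real.rpow_le_rpow_of_nonpos hmw (by linarith) (by rw [hs]; linarith)
    have h7 : (m : ℝ) ^ (s - 1) / 2 ≤ (2 * (m : ℝ)) ^ (s - 1) := by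
      rw [Real.mul_rpow (by norm_num) (by linarith), div_eq_inv_mul]
      gcongr
      calc (2 : ℝ)⁻¹ = 2 ^ (-1 : ℝ) := by rw [Real.rpow_neg_one]
        _ ≤ 2 ^ (s - 1) := Real.rpow_le_rpow_of_exponent_le (by norm_num) (by linarith)
    have h8 : (m : ℝ) ^ η * (m : ℝ) ^ (s - 1) = (m : ℝ) ^ (η / 2) := by
      rw [← Real.rpow_add (by linarith), hs]; ring_nf
    calc (4 : ℝ) ≤ (1 / 8) * (m : ℝ) ^ (η / 2) := by linarith
      _ = (1 / 2) * ((m : ℝ) ^ η / 2) * ((m : ℝ) ^ (s - 1) / 2) := by rw [← h8]; ring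
      _ ≤ s * w * ((m : ℝ) + w) ^ (s - 1) := by
          gcongr
          exact h7.trans h6
  have hcount := Bset_window (s := s) (by linarith) (by rw [hs]; linarith) m w
  have hfl : (m : ℝ) ^ s + 4 ≤ ((m + w : ℕ) : ℝ) ^ s := by push_cast; linarith
  have hfl2 : ⌊(m : ℝ) ^ s⌋₊ + 4 ≤ ⌊((m + w : ℕ) : ℝ) ^ s⌋₊ := by
    apply Nat.le_floor
    push_cast
    have := Nat.floor_le (show 0 ≤ (m : ℝ) ^ s by positivity)
    push_cast at hfl
    linarith
  have hcard : 4 ≤ ((Finset.Ico m (m + w)).filter (fun n => n ∈ Bset s)).card := by omega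
  calc (1 : ℝ) ≤ ∑ n ∈ (Finset.Ico m (m + w)).filter (fun n => n ∈ Bset s), (1 / 2 : ℝ) := by
        rw [Finset.sum_const, nsmul_eq_mul]
        have : (4 : ℝ) ≤ (((Finset.Ico m (m + w)).filter (fun n => n ∈ Bset s)).card : ℝ) := by
          exact_mod_cast hcard
        linarith
    _ = ∑ n ∈ (Finset.Ico m (m + w)).filter (fun n => n ∈ Bset s), rr coins (ev (Bset s)) n := by
        refine Finset.sum_congr rfl fun n hn => ?_
        rw [rr_ev _ _ (Finset.mem_filter.1 hn).2]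
    _ ≤ ∑ n ∈ Finset.Ico m (m + w), rr coins (ev (Bset s)) n :=
        Finset.sum_le_sum_of_subset_of_nonneg (Finset.filter_subset _ _)
          (fun n _ _ => rr_nonneg _ _ n)

end Pool.Agent.Gil
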