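import Mathlib
import Pool.Agent.Lib.MP_aba96a_nt.Perturb
import Pool.Agent.Lib.MP_aba96a_nt.Sparse
import Pool.Agent.Lib.MP_aba96a_nt.PrimeGap

/-!
# The primes as a sequence with power-saving gaps
-/

set_option autoImplicit false

open MeasureTheory Filter ProbabilityTheory

namespace Pool.Agent.Gil

lemma b_even : Even (((Nat.nth Nat.Prime 0 : ℕ) : ℤ)) := by
  rw [Nat.nth_prime_zero_eq_two]; exact even_two

lemma b_odd (n : ℕ) (hn : 1 ≤ n) : Odd (((Nat.nth Nat.Prime n : ℕ) : ℤ)) := by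
  have h1 : Nat.Prime (Nat.nth Nat.Prime n) := Nat.prime_nth_prime n
  have h2 : Nat.nth Nat.Prime n ≠ 2 := by
    have h3 : Nat.nth Nat.Prime 0 < Nat.nth Nat.Prime n :=
      Nat.nth_strictMono Nat.infinite_setOfPred_prime (by omega)
    rw [Nat.nth_prime_zero_eq_two] at h3
    omega
  have h4 : Odd (Nat.nth Nat.Prime n) := h1.odd_of_ne_two h2
  exact_mod_cast h4

lemma b_gap {δ : ℝ}
    (h : ∀ᶠ n : ℕ in atTop,
      (Nat.nth Nat.Prime (n + 1) : ℝ) - Nat.nth Nat.Prime n ≤ (n : ℝ) ^ (1 - δ)) :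
    ∀ᶠ j : ℕ in atTop, |(((((Nat.nth Nat.Prime (j + 1) : ℕ) : ℤ) -
      ((Nat.nth Nat.Prime j : ℕ) : ℤ)) : ℤ) : ℝ)| ≤ (j : ℝ) ^ (1 - 3 * (δ / 3)) := by
  filter_upwards [h] with n hn
  have h3 : Nat.nth Nat.Prime n < Nat.nth Nat.Prime (n + 1) :=
    Nat.nth_strictMono Nat.infinite_setOfPred_prime (by omega)
  have h4 : (Nat.nth Nat.Prime n : ℝ) < Nat.nth Nat.Prime (n + 1) := by exact_mod_cast h3
  push_cast
  rw [abs_of_nonneg (by linarith), show 1 - 3 * (δ / 3) = 1 - δ by ring]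
  exact hn


end Pool.Agent.Gil
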